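import Mathlib
import Pool.Agent.H92.EH.TestFun

/-!
Counting coincidences between sums of inverses of primes.
-/

set_option autoImplicit false

namespace Pool.Agent.H92.EH

open Finset

/-- The numerator of the difference of the sums of inverses. -/
def Cc {k : ℕ} (p p' : Fin k → ℕ) : ℤ :=
  (∑ i, ∏ j ∈ univ.erase i, (p j : ℤ)) * ∏ j, (p' j : ℤ)
    - (∑ i, ∏ j ∈ univ.erase i, (p' j : ℤ)) * ∏ j, (p j : ℤ)

theorem Cc_zero {k : ℕ} (p p' : Fin k → ℕ) (hp : ∀ i, Nat.Prime (p i)) (hp' : ∀ i, Nat.Prime (p' i))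
    (hk : ∀ i, k < p' i) (h : Cc p p' = 0) : ∀ i, ∃ j, p' i = p j := by
  intro i0
  by_contra hcon
  push Not at hcon
  set l := p' i0 with hl
  have hlp : Fact (Nat.Prime l) := ⟨hp' i0⟩
  -- the rational identity
  have hsum : ∀ f : Fin k → ℕ, (∀ i, Nat.Prime (f i)) →
      ((∑ i, ∏ j ∈ univ.erase i, (f j : ℤ) : ℤ) : ℚ) = (∑ i, (f i : ℚ)⁻¹) * ∏ j, (f j : ℚ) := by
    intro f hf
    push_cast
    rw [sum_mul]
    refine sum_congr rfl fun i _ => ?_
    rw [← mul_prod_erase univ (fun j => (f j : ℚ)) (mem_univ i), ← mul_assoc,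
      inv_mul_cancel₀ (by exact_mod_cast (hf i).ne_zero), one_mul]
  have hprod0 : ∀ f : Fin k → ℕ, (∀ i, Nat.Prime (f i)) → (∏ j, (f j : ℚ)) ≠ 0 := by
    intro f hf
    rw [prod_ne_zero_iff]
    intro j _
    exact_mod_cast (hf j).ne_zero
  have hS : ∑ i, (p i : ℚ)⁻¹ = ∑ i, (p' i : ℚ)⁻¹ := by
    have h1 : ((Cc p p' : ℤ) : ℚ) = 0 := by rw [h]; norm_num
    unfold Cc at h1
    rw [Int.cast_sub, Int.cast_mul, Int.cast_mul, hsum p hp, hsum p' hp', Int.cast_prod,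
      Int.cast_prod] at h1
    simp only [Int.cast_natCast] at h1
    have h2 : (∑ i, (p i : ℚ)⁻¹ - ∑ i, (p' i : ℚ)⁻¹) * ((∏ j, (p j : ℚ)) * ∏ j, (p' j : ℚ)) = 0 := by
      linear_combination h1
    rcases mul_eq_zero.mp h2 with h3 | h3
    · exact sub_eq_zero.mp h3
    · exact absurd h3 (mul_ne_zero (hprod0 p hp) (hprod0 p' hp'))
  set U := univ.filter (fun j => p' j = l) with hU
  have hUpos : 0 < U.card := by
    rw [card_pos]
    exact ⟨i0, by rw [hU, mem_filter]; exact ⟨mem_univ _, rfl⟩⟩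
  have hUle : U.card ≤ k := by
    calc U.card ≤ (univ : Finset (Fin k)).card := card_le_card (filter_subset _ _)
      _ = k := by rw [card_univ, Fintype.card_fin]
  have hsplit : ∑ i, (p' i : ℚ)⁻¹ = (U.card : ℚ) * (l : ℚ)⁻¹
      + ∑ i ∈ univ.filter (fun j => ¬ p' j = l), (p' i : ℚ)⁻¹ := by
    rw [← sum_filter_add_sum_filter_not univ (fun j => p' j = l)]
    congr 1
    rw [← nsmul_eq_mul, ← sum_const]
    refine sum_congr rfl fun j hj => ?_
    rw [(mem_filter.mp hj).2]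
  have hone : ∀ r : ℕ, Nat.Prime r → r ≠ l → padicNorm l ((r : ℚ)⁻¹) ≤ 1 := by
    intro r hr hne
    have h1 : padicNorm l (r : ℚ) = 1 := by
      rw [padicNorm.nat_eq_one_iff]
      intro hd
      exact hne ((Nat.prime_dvd_prime_iff_eq hlp.out hr).mp hd).symm
    have h2 : padicNorm l ((r : ℚ)⁻¹) * padicNorm l (r : ℚ) = 1 := by
      rw [← padicNorm.mul, inv_mul_cancel₀ (by exact_mod_cast hr.ne_zero), padicNorm.one]
    rw [h1, mul_one] at h2
    exact h2.le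
  have hA : padicNorm l (∑ i, (p i : ℚ)⁻¹) ≤ 1 := by
    apply padicNorm.sum_le'
    · intro i _
      exact hone (p i) (hp i) (fun h => hcon i h.symm)
    · norm_num
  have hB : padicNorm l (∑ i ∈ univ.filter (fun j => ¬ p' j = l), (p' i : ℚ)⁻¹) ≤ 1 := by
    apply padicNorm.sum_le'
    · intro i hi
      exact hone (p' i) (hp' i) (mem_filter.mp hi).2
    · norm_num
  have hC : padicNorm l ((U.card : ℚ) * (l : ℚ)⁻¹) ≤ 1 := by
    have h1 : (U.card : ℚ) * (l : ℚ)⁻¹ = ∑ i, (p i : ℚ)⁻¹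
        - ∑ i ∈ univ.filter (fun j => ¬ p' j = l), (p' i : ℚ)⁻¹ := by
      rw [hS, hsplit]
      ring
    rw [h1]
    exact (padicNorm.sub).trans (max_le hA hB)
  have hU1 : padicNorm l (U.card : ℚ) = 1 := by
    rw [padicNorm.nat_eq_one_iff]
    intro hd
    have := Nat.le_of_dvd hUpos hd
    have := hk i0
    omega
  rw [padicNorm.mul, hU1, one_mul] at hC
  have h2 : padicNorm l ((l : ℚ)⁻¹) * padicNorm l (l : ℚ) = 1 := by
    rw [← padicNorm.mul, inv_mul_cancel₀ (by exact_mod_cast hlp.out.ne_zero), padicNorm.one]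
  rw [padicNorm.padicNorm_p hlp.out.one_lt] at h2
  have hl1 : (1 : ℚ) < l := by exact_mod_cast hlp.out.one_lt
  have h3 : (l : ℚ)⁻¹ < 1 := inv_lt_one_of_one_lt₀ hl1
  have h4 : 0 < (l : ℚ)⁻¹ := by positivity
  nlinarith

theorem Cc_dvd {k : ℕ} (q : ℕ) (p p' : Fin k → ℕ) (hp : ∀ i, Nat.Coprime (p i) q)
    (hp' : ∀ i, Nat.Coprime (p' i) q)
    (h : (q : ℤ) ∣ (∑ i, (inv (p i) q : ℤ)) - ∑ i, (inv (p' i) q : ℤ)) : (q : ℤ) ∣ Cc p p' := by
  have hinv : ∀ f : Fin k → ℕ, (∀ i, Nat.Coprime (f i) q) → ∀ i,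
      ((f i : ℕ) : ZMod q) * ((inv (f i) q : ℕ) : ZMod q) = 1 := by
    intro f hf i
    have h1 := inv_spec (hf i)
    rw [← ZMod.intCast_zmod_eq_zero_iff_dvd] at h1
    push_cast at h1
    rw [sub_eq_zero] at h1
    rw [mul_comm]
    exact h1
  have hsum : ∀ f : Fin k → ℕ, (∀ i, Nat.Coprime (f i) q) →
      ((∑ i, ∏ j ∈ univ.erase i, (f j : ℤ) : ℤ) : ZMod q)
        = (∑ i, ((inv (f i) q : ℕ) : ZMod q)) * ∏ j, ((f j : ℕ) : ZMod q) := by
    intro f hf
    push_cast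
    rw [sum_mul]
    refine sum_congr rfl fun i _ => ?_
    rw [← mul_prod_erase univ (fun j => ((f j : ℕ) : ZMod q)) (mem_univ i), ← mul_assoc,
      mul_comm (((inv (f i) q : ℕ) : ZMod q)), hinv f hf i, one_mul]
  rw [← ZMod.intCast_zmod_eq_zero_iff_dvd] at h ⊢
  push_cast at h
  unfold Cc
  rw [Int.cast_sub, Int.cast_mul, Int.cast_mul, hsum p hp, hsum p' hp', Int.cast_prod,
    Int.cast_prod]
  simp only [Int.cast_natCast]
  linear_combination ((∏ j, ((p j : ℕ) : ZMod q)) * ∏ j, ((p' j : ℕ) : ZMod q)) * h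

theorem Cc_natAbs_le {k : ℕ} (B : ℕ) (hB : 1 ≤ B) (p p' : Fin k → ℕ) (hp : ∀ i, p i ≤ B)
    (hp' : ∀ i, p' i ≤ B) : (Cc p p').natAbs ≤ k * B ^ (2 * k) := by
  have hterm : ∀ f g : Fin k → ℕ, (∀ i, f i ≤ B) → (∀ i, g i ≤ B) →
      (∑ i, ∏ j ∈ univ.erase i, f j) * ∏ j, g j ≤ k * B ^ (2 * k) := by
    intro f g hf hg
    have h1 : ∀ i, ∏ j ∈ univ.erase i, f j ≤ B ^ k := by
      intro i
      calc ∏ j ∈ univ.erase i, f j ≤ ∏ _j ∈ univ.erase i, B :=
            prod_le_prod' fun j _ => hf j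
        _ = B ^ (univ.erase i).card := prod_const B
        _ ≤ B ^ k := by
            apply Nat.pow_le_pow_right hB
            calc (univ.erase i).card ≤ (univ : Finset (Fin k)).card :=
                  card_le_card (erase_subset _ _)
              _ = k := by rw [card_univ, Fintype.card_fin]
    have h2 : ∏ j, g j ≤ B ^ k := by
      calc ∏ j, g j ≤ ∏ _j : Fin k, B := prod_le_prod' fun j _ => hg j
        _ = B ^ k := by rw [prod_const, card_univ, Fintype.card_fin]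
    calc (∑ i, ∏ j ∈ univ.erase i, f j) * ∏ j, g j ≤ (∑ _i : Fin k, B ^ k) * B ^ k :=
          Nat.mul_le_mul (sum_le_sum fun i _ => h1 i) h2
      _ = k * B ^ (2 * k) := by
          rw [sum_const, card_univ, Fintype.card_fin, smul_eq_mul, mul_assoc, ← pow_add]
          congr 2
          omega
  have h1 := hterm p p' hp hp'
  have h2 := hterm p' p hp' hp
  have h3 : Cc p p' = (((∑ i, ∏ j ∈ univ.erase i, p j) * ∏ j, p' j : ℕ) : ℤ)
      - (((∑ i, ∏ j ∈ univ.erase i, p' j) * ∏ j, p j : ℕ) : ℤ) := by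
    unfold Cc
    push_cast
    rfl
  rw [h3]
  omega

end Pool.Agent.H92.EH
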