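import Mathlib
import Pool.Agent.H92.EH3.Combi

/-!
High moments of the test functions.
-/

set_option autoImplicit false

namespace Pool.Agent.H92.EH

open Finset

theorem e_sum {ι : Type*} (s : Finset ι) (f : ι → ℝ) : e (∑ i ∈ s, f i) = ∏ i ∈ s, e (f i) := by
  classical
  induction s using Finset.induction_on with
  | empty => simp [e_zero]
  | insert a s ha ih => rw [sum_insert ha, prod_insert ha, e_add, ih]

/-- Parseval, counting coincidences. -/
theorem parseval_count {ι : Type*} [DecidableEq ι] (q : ℕ) (hq : 0 < q) (P : Finset ι)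
    (κ : ι → ℤ) :
    ∑ a ∈ range q, ‖∑ i ∈ P, e (κ i * ((a : ℝ) / q))‖ ^ 2
      = q * (((P ×ˢ P).filter (fun ij => (q : ℤ) ∣ κ ij.1 - κ ij.2)).card : ℝ) := by
  have h1 : ((∑ a ∈ range q, ‖∑ i ∈ P, e (κ i * ((a : ℝ) / q))‖ ^ 2 : ℝ) : ℂ)
      = ∑ i ∈ P, ∑ j ∈ P, ∑ a ∈ range q, e ((κ i - κ j : ℤ) * ((a : ℝ) / q)) := by
    rw [Complex.ofReal_sum]
    have h2 : ∀ a : ℕ, ((‖∑ i ∈ P, e (κ i * ((a : ℝ) / q))‖ ^ 2 : ℝ) : ℂ)
        = ∑ i ∈ P, ∑ j ∈ P, e ((κ i - κ j : ℤ) * ((a : ℝ) / q)) := by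
      intro a
      push_cast
      rw [← Complex.mul_conj', map_sum, sum_mul_sum]
      refine sum_congr rfl fun i _ => sum_congr rfl fun j _ => ?_
      rw [e_mul_conj]
      congr 1
      ring
    simp_rw [h2]
    rw [sum_comm]
    refine sum_congr rfl fun i _ => ?_
    rw [sum_comm]
  have h3 : ∑ i ∈ P, ∑ j ∈ P, ∑ a ∈ range q, e ((κ i - κ j : ℤ) * ((a : ℝ) / q))
      = ((q * (((P ×ˢ P).filter (fun ij => (q : ℤ) ∣ κ ij.1 - κ ij.2)).card : ℝ) : ℝ) : ℂ) := by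
    have h4 : ∀ i j, ∑ a ∈ range q, e ((κ i - κ j : ℤ) * ((a : ℝ) / q))
        = if (q : ℤ) ∣ κ i - κ j then (q : ℂ) else 0 := fun i j => sum_complete q hq _
    simp_rw [h4]
    rw [← sum_product', ← sum_filter, sum_const, nsmul_eq_mul]
    push_cast
    ring
  have h5 := h1.trans h3
  exact_mod_cast h5

/-- The test function. -/
noncomputable def TT (R : Finset ℕ) (q n : ℕ) : ℂ :=
  ∑ r ∈ R.filter (fun r => Nat.Coprime r q), e (((inv r q : ℕ) : ℤ) * ((n : ℝ) / q))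

/-- Tuples. -/
def Tup (k : ℕ) (R : Finset ℕ) : Finset (Fin k → ℕ) := Fintype.piFinset (fun _ => R)

theorem TT_pow (k : ℕ) (R : Finset ℕ) (q n : ℕ) :
    TT R q n ^ k = ∑ p ∈ Tup k (R.filter (fun r => Nat.Coprime r q)),
      e (((∑ i, (inv (p i) q : ℤ) : ℤ) : ℝ) * ((n : ℝ) / q)) := by
  have h1 : TT R q n ^ k = ∏ _i : Fin k, ∑ r ∈ R.filter (fun r => Nat.Coprime r q),
      e (((inv r q : ℕ) : ℤ) * ((n : ℝ) / q)) := by
    rw [prod_const, card_univ, Fintype.card_fin]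
    rfl
  rw [h1, prod_univ_sum]
  refine sum_congr rfl fun p _ => ?_
  rw [← e_sum]
  congr 1
  push_cast
  rw [sum_mul]

theorem card_Tup (k : ℕ) (R : Finset ℕ) : (Tup k R).card = R.card ^ k := by
  unfold Tup
  rw [Fintype.card_piFinset, prod_const, card_univ, Fintype.card_fin]

theorem mem_Tup {k : ℕ} {R : Finset ℕ} {p : Fin k → ℕ} : p ∈ Tup k R ↔ ∀ i, p i ∈ R := by
  unfold Tup
  rw [Fintype.mem_piFinset]

theorem moment_le (k : ℕ) (R Q : Finset ℕ) (A B : ℕ) (Dm : ℝ) (hB : 1 ≤ B)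
    (hRp : ∀ r ∈ R, Nat.Prime r) (hRk : ∀ r ∈ R, k < r) (hRB : ∀ r ∈ R, r ≤ B)
    (hQ : Q ⊆ Ioc A (2 * A))
    (hD : ∀ n : ℕ, 1 ≤ n → n ≤ k * B ^ (2 * k) → (n.divisors.card : ℝ) ≤ Dm) (hDm : 0 ≤ Dm) :
    ∑ q ∈ Q, ∑ a ∈ range q, ‖TT R q a‖ ^ (2 * k)
      ≤ 2 * A * (Q.card * ((k : ℝ) ^ k * (R.card : ℝ) ^ k) + (R.card : ℝ) ^ (2 * k) * Dm) := by
  classical
  set T := Tup k R with hT
  have hq : ∀ q ∈ Q, ∑ a ∈ range q, ‖TT R q a‖ ^ (2 * k)
      ≤ 2 * A * (((T ×ˢ T).filter (fun pp => (q : ℤ) ∣ Cc pp.1 pp.2)).card : ℝ) := by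
    intro q hqQ
    have hq' := mem_Ioc.mp (hQ hqQ)
    have hq0 : 0 < q := by omega
    have h1 : ∀ a ∈ range q, ‖TT R q a‖ ^ (2 * k)
        = ‖∑ p ∈ Tup k (R.filter (fun r => Nat.Coprime r q)),
          e (((∑ i, (inv (p i) q : ℤ) : ℤ) : ℝ) * ((a : ℝ) / q))‖ ^ 2 := by
      intro a _
      rw [← TT_pow, norm_pow, ← pow_mul, mul_comm]
    rw [sum_congr rfl h1, parseval_count q hq0]
    apply mul_le_mul
    · exact_mod_cast hq'.2
    · have h2 : ((Tup k (R.filter (fun r => Nat.Coprime r q))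
          ×ˢ Tup k (R.filter (fun r => Nat.Coprime r q))).filter
          (fun ij => (q : ℤ) ∣ (∑ i, (inv (ij.1 i) q : ℤ)) - ∑ i, (inv (ij.2 i) q : ℤ)))
          ⊆ (T ×ˢ T).filter (fun pp => (q : ℤ) ∣ Cc pp.1 pp.2) := by
        intro pp hpp
        rw [mem_filter, mem_product, mem_Tup, mem_Tup] at hpp
        rw [mem_filter, mem_product, hT, mem_Tup, mem_Tup]
        refine ⟨⟨fun i => (mem_filter.mp (hpp.1.1 i)).1, fun i => (mem_filter.mp (hpp.1.2 i)).1⟩, ?_⟩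
        exact Cc_dvd q pp.1 pp.2 (fun i => (mem_filter.mp (hpp.1.1 i)).2)
          (fun i => (mem_filter.mp (hpp.1.2 i)).2) hpp.2
      exact_mod_cast card_le_card h2
    · positivity
    · positivity
  refine (sum_le_sum hq).trans ?_
  rw [← mul_sum]
  apply mul_le_mul_of_nonneg_left _ (by positivity)
  -- exchange the order of counting
  have hex : ∑ q ∈ Q, (((T ×ˢ T).filter (fun pp => (q : ℤ) ∣ Cc pp.1 pp.2)).card : ℝ)
      = ∑ pp ∈ T ×ˢ T, ((Q.filter (fun q : ℕ => (q : ℤ) ∣ Cc pp.1 pp.2)).card : ℝ) := by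
    have e1 : ∀ q : ℕ, (((T ×ˢ T).filter (fun pp => (q : ℤ) ∣ Cc pp.1 pp.2)).card : ℝ)
        = ∑ pp ∈ T ×ˢ T, (if (q : ℤ) ∣ Cc pp.1 pp.2 then (1 : ℝ) else 0) := by
      intro q
      rw [card_filter]
      push_cast
      rfl
    have e2 : ∀ pp : (Fin k → ℕ) × (Fin k → ℕ),
        ((Q.filter (fun q : ℕ => (q : ℤ) ∣ Cc pp.1 pp.2)).card : ℝ)
        = ∑ q ∈ Q, (if (q : ℤ) ∣ Cc pp.1 pp.2 then (1 : ℝ) else 0) := by
      intro pp
      rw [card_filter]
      push_cast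
      rfl
    simp_rw [e1, e2]
    rw [sum_comm]
  rw [hex]
  have hpp : ∀ pp ∈ T ×ˢ T, ((Q.filter (fun q : ℕ => (q : ℤ) ∣ Cc pp.1 pp.2)).card : ℝ)
      ≤ (if Cc pp.1 pp.2 = 0 then (Q.card : ℝ) else 0) + Dm := by
    intro pp hmem
    rw [mem_product, hT, mem_Tup, mem_Tup] at hmem
    split_ifs with h0
    · have h1 : ((Q.filter (fun q : ℕ => (q : ℤ) ∣ Cc pp.1 pp.2)).card : ℝ) ≤ Q.card := by
        exact_mod_cast card_le_card (filter_subset _ _)
      linarith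
    · rw [zero_add]
      have h1 : (Q.filter (fun q : ℕ => (q : ℤ) ∣ Cc pp.1 pp.2)).card
          ≤ ((Cc pp.1 pp.2).natAbs.divisors).card := by
        apply card_le_card
        intro q hq1
        rw [mem_filter] at hq1
        rw [Nat.mem_divisors]
        refine ⟨?_, Int.natAbs_ne_zero.mpr h0⟩
        rw [← Int.natCast_dvd]
        exact hq1.2
      have h2 : ((Q.filter (fun q : ℕ => (q : ℤ) ∣ Cc pp.1 pp.2)).card : ℝ)
          ≤ (((Cc pp.1 pp.2).natAbs.divisors).card : ℝ) := by exact_mod_cast h1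
      refine h2.trans (hD _ ?_ ?_)
      · have := Int.natAbs_ne_zero.mpr h0
        omega
      · exact Cc_natAbs_le B hB pp.1 pp.2 (fun i => hRB _ (hmem.1 i)) (fun i => hRB _ (hmem.2 i))
  refine (sum_le_sum hpp).trans ?_
  rw [sum_add_distrib, sum_const, card_product, nsmul_eq_mul, ← sum_filter, sum_const,
    nsmul_eq_mul]
  have hcardT : (T.card : ℝ) = (R.card : ℝ) ^ k := by
    rw [hT, card_Tup]
    push_cast
    rfl
  have hdiag : ((T ×ˢ T).filter (fun pp => Cc pp.1 pp.2 = 0)).card ≤ R.card ^ k * k ^ k := by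
    have h1 : (T ×ˢ T).filter (fun pp => Cc pp.1 pp.2 = 0)
        ⊆ T.biUnion (fun p => (Fintype.piFinset (fun _ : Fin k => univ.image p)).image
          (fun p' => (p, p'))) := by
      intro pp hmem
      rw [mem_filter, mem_product, hT, mem_Tup, mem_Tup] at hmem
      rw [mem_biUnion]
      refine ⟨pp.1, by rw [hT, mem_Tup]; exact hmem.1.1, ?_⟩
      rw [mem_image]
      refine ⟨pp.2, ?_, rfl⟩
      rw [Fintype.mem_piFinset]
      intro i
      rw [mem_image]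
      obtain ⟨j, hj⟩ := Cc_zero pp.1 pp.2 (fun i => hRp _ (hmem.1.1 i))
        (fun i => hRp _ (hmem.1.2 i)) (fun i => hRk _ (hmem.1.2 i)) hmem.2 i
      exact ⟨j, mem_univ _, hj.symm⟩
    refine (card_le_card h1).trans ?_
    refine card_biUnion_le.trans ?_
    have h2 : ∀ p ∈ T, ((Fintype.piFinset (fun _ : Fin k => univ.image p)).image
        (fun p' => (p, p'))).card ≤ k ^ k := by
      intro p _
      refine card_image_le.trans ?_
      rw [Fintype.card_piFinset, prod_const, card_univ, Fintype.card_fin]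
      apply Nat.pow_le_pow_left
      refine card_image_le.trans ?_
      rw [card_univ, Fintype.card_fin]
    refine (sum_le_sum h2).trans ?_
    rw [sum_const, smul_eq_mul, hT, card_Tup]
  have hdiag' : (((T ×ˢ T).filter (fun pp => Cc pp.1 pp.2 = 0)).card : ℝ)
      ≤ (R.card : ℝ) ^ k * (k : ℝ) ^ k := by exact_mod_cast hdiag
  have h3 : (((T ×ˢ T).filter (fun pp => Cc pp.1 pp.2 = 0)).card : ℝ) * Q.card
      ≤ ((R.card : ℝ) ^ k * (k : ℝ) ^ k) * Q.card :=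
    mul_le_mul_of_nonneg_right hdiag' (by positivity)
  have h4 : ((T.card * T.card : ℕ) : ℝ) * Dm = (R.card : ℝ) ^ (2 * k) * Dm := by
    push_cast
    rw [hcardT, ← pow_add]
    congr 2
    omega
  rw [h4]
  linarith

end Pool.Agent.H92.EH
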