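import Mathlib
import Pool.Agent.H92.EH2.Main4
import Pool.Agent.H92.EH3.Moment

/-!
The first moment inequality.
-/

set_option autoImplicit false

namespace Pool.Agent.H92.EH

open Finset

/-- The error in the class of `a`. -/
noncomputable def er (x q a : ℕ) : ℝ :=
  ((pc x q (a : ZMod q) : ℕ) : ℝ) - (Nat.primeCounting x : ℝ) / (Nat.totient q : ℝ)

theorem pc_le (x q a : ℕ) : pc x q (a : ZMod q) ≤ x / q + 1 := by
  unfold pc
  rw [← card_range (x / q + 1)]
  apply card_le_card_of_injOn (fun p => p / q)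
  · intro p hp
    rw [mem_coe, mem_filter, mem_Icc] at hp
    rw [mem_coe, mem_range]
    have : p / q ≤ x / q := Nat.div_le_div_right hp.1.2
    show p / q < x / q + 1
    omega
  · intro p hp p' hp' h
    rw [mem_coe, mem_filter] at hp hp'
    have h1 : p ≡ p' [MOD q] := by
      rw [← ZMod.natCast_eq_natCast_iff, hp.2.2, hp'.2.2]
    have h2 : p % q = p' % q := h1
    have h3 : p / q = p' / q := h
    rw [← Nat.div_add_mod p q, ← Nat.div_add_mod p' q, h2, h3]

/-- Decomposition of a sum over primes of a function of the residue class. -/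
theorem test_decomp (R : Finset ℕ) (x q : ℕ) (hq : 0 < q) :
    ‖∑ p ∈ (Icc 1 x).filter Nat.Prime, TT R q p‖
      ≤ ∑ a ∈ red q, ‖TT R q a‖ * |er x q a| + (Nat.log 2 q) * (R.card : ℝ)
        + (Nat.primeCounting x : ℝ) / Nat.totient q * R.card := by
  classical
  set P := R.filter (fun r => Nat.Coprime r q) with hP
  have hPcard : (P.card : ℝ) ≤ R.card := by exact_mod_cast card_le_card (filter_subset _ _)
  set h : ℕ → ℂ := fun n => TT R q n with hh
  have hper : ∀ p : ℕ, h (p % q) = h p := by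
    intro p
    rw [hh]
    simp only
    unfold TT
    refine sum_congr rfl fun r _ => ?_
    exact e_mod q p hq _
  have hnorm : ∀ p : ℕ, ‖h p‖ ≤ R.card := by
    intro p
    refine le_trans ?_ hPcard
    rw [hh]
    simp only
    unfold TT
    refine (norm_sum_le _ _).trans (le_of_eq ?_)
    rw [← hP]
    simp only [norm_e, sum_const, nsmul_eq_mul, mul_one]
  set Pr := (Icc 1 x).filter Nat.Prime with hPr
  have hsplit : ∑ p ∈ Pr, h p = ∑ p ∈ Pr.filter (fun p => Nat.Coprime p q), h p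
      + ∑ p ∈ Pr.filter (fun p => ¬ Nat.Coprime p q), h p :=
    (sum_filter_add_sum_filter_not _ _ _).symm
  have hbad : ‖∑ p ∈ Pr.filter (fun p => ¬ Nat.Coprime p q), h p‖
      ≤ (Nat.log 2 q) * (R.card : ℝ) := by
    refine (norm_sum_le _ _).trans ((sum_le_sum fun p _ => hnorm p).trans ?_)
    rw [sum_const, nsmul_eq_mul]
    apply mul_le_mul_of_nonneg_right _ (by positivity)
    have : (Pr.filter (fun p => ¬ Nat.Coprime p q)).card ≤ q.primeFactors.card := by
      apply card_le_card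
      intro p hp
      rw [mem_filter, hPr, mem_filter] at hp
      rw [Nat.mem_primeFactors]
      refine ⟨hp.1.2, ?_, hq.ne'⟩
      by_contra hnd
      exact hp.2 ((Nat.Prime.coprime_iff_not_dvd hp.1.2).mpr hnd)
    exact_mod_cast this.trans (card_primeFactors_le q)
  have hgood : ∑ p ∈ Pr.filter (fun p => Nat.Coprime p q), h p
      = ∑ a ∈ red q, h a * (pc x q (a : ZMod q) : ℂ) := by
    have h1 : ∑ p ∈ Pr.filter (fun p => Nat.Coprime p q), h p
        = ∑ a ∈ red q, ∑ p ∈ (Pr.filter (fun p => Nat.Coprime p q)).filter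
            (fun p => p % q = a), h p := by
      rw [sum_fiberwise_of_maps_to]
      intro p hp
      rw [mem_filter] at hp
      rw [mem_red]
      refine ⟨Nat.mod_lt _ hq, ?_⟩
      have h2 : Nat.gcd (p % q) q = Nat.gcd p q := by
        rw [← Nat.gcd_rec, Nat.gcd_comm]
      show Nat.gcd (p % q) q = 1
      rw [h2]
      exact hp.2
    rw [h1]
    refine sum_congr rfl fun a ha => ?_
    have ha' := mem_red.mp ha
    have h2 : (Pr.filter (fun p => Nat.Coprime p q)).filter (fun p => p % q = a)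
        = (Icc 1 x).filter (fun p : ℕ => Nat.Prime p ∧ ((p : ZMod q) = (a : ZMod q))) := by
      ext p
      simp only [hPr, mem_filter, mem_Icc]
      rw [ZMod.natCast_eq_natCast_iff']
      rw [Nat.mod_eq_of_lt ha'.1]
      constructor
      · rintro ⟨⟨⟨h3, h4⟩, _⟩, h6⟩
        exact ⟨h3, h4, h6⟩
      · rintro ⟨h3, h4, h6⟩
        refine ⟨⟨⟨h3, h4⟩, ?_⟩, h6⟩
        have h7 : Nat.gcd (p % q) q = Nat.gcd p q := by
          rw [← Nat.gcd_rec, Nat.gcd_comm]
        show Nat.gcd p q = 1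
        rw [← h7, h6]
        exact ha'.2
    rw [h2]
    have h3 : ∀ p ∈ (Icc 1 x).filter (fun p : ℕ => Nat.Prime p ∧ ((p : ZMod q) = (a : ZMod q))),
        h p = h a := by
      intro p hp
      rw [mem_filter, ZMod.natCast_eq_natCast_iff', Nat.mod_eq_of_lt ha'.1] at hp
      rw [← hper p, hp.2.2]
    rw [sum_congr rfl h3, sum_const, nsmul_eq_mul, mul_comm]
    rfl
  have hdecomp : ∑ a ∈ red q, h a * (pc x q (a : ZMod q) : ℂ)
      = ∑ a ∈ red q, h a * ((er x q a : ℝ) : ℂ)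
        + ((Nat.primeCounting x : ℝ) / (Nat.totient q : ℝ) : ℝ)
          * ∑ r ∈ P, ram q ((inv r q : ℕ) : ℤ) := by
    have h1 : ∑ r ∈ P, ram q ((inv r q : ℕ) : ℤ) = ∑ a ∈ red q, h a := by
      rw [hh]
      simp only
      unfold TT ram
      rw [sum_comm]
    rw [h1, mul_sum, ← sum_add_distrib]
    refine sum_congr rfl fun a _ => ?_
    unfold er
    push_cast
    ring
  have hmain : ‖∑ a ∈ red q, h a * ((er x q a : ℝ) : ℂ)‖
      ≤ ∑ a ∈ red q, ‖TT R q a‖ * |er x q a| := by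
    refine (norm_sum_le _ _).trans (le_of_eq (sum_congr rfl fun a _ => ?_))
    rw [norm_mul, Complex.norm_real, Real.norm_eq_abs]
  have hram1 : ∀ r ∈ P, ‖ram q ((inv r q : ℕ) : ℤ)‖ ≤ 1 := by
    intro r hr
    have h1 := (mem_filter.mp hr).2
    have h2 := sum_ram_le 1 q r hq h1.symm
    rw [show Icc 1 1 = ({1} : Finset ℕ) by rfl, sum_singleton] at h2
    simpa using h2
  have hram : ‖(((Nat.primeCounting x : ℝ) / (Nat.totient q : ℝ) : ℝ) : ℂ)
        * ∑ r ∈ P, ram q ((inv r q : ℕ) : ℤ)‖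
      ≤ (Nat.primeCounting x : ℝ) / Nat.totient q * R.card := by
    rw [norm_mul, Complex.norm_real, Real.norm_of_nonneg (by positivity)]
    apply mul_le_mul_of_nonneg_left _ (by positivity)
    refine (norm_sum_le _ _).trans ((sum_le_sum hram1).trans ?_)
    rw [sum_const, nsmul_eq_mul, mul_one]
    exact hPcard
  show ‖∑ p ∈ Pr, h p‖ ≤ _
  rw [hsplit, hgood, hdecomp]
  calc _ ≤ _ := norm_add_le _ _
    _ ≤ _ := add_le_add_left (norm_add_le _ _) _
    _ ≤ _ := by linarith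

/-- A convexity bound. -/
theorem le_add_pow (t H : ℝ) (ht : 0 ≤ t) (hH : 0 < H) (k : ℕ) (hk : 1 ≤ k) :
    t ≤ H + t ^ (2 * k) / H ^ (2 * k - 1) := by
  rcases le_or_gt t H with h | h
  · have : 0 ≤ t ^ (2 * k) / H ^ (2 * k - 1) := by positivity
    linarith
  · have h1 : H ^ (2 * k - 1) ≤ t ^ (2 * k - 1) := pow_le_pow_left₀ hH.le h.le _
    have h2 : t ≤ t ^ (2 * k) / H ^ (2 * k - 1) := by
      rw [le_div_iff₀ (by positivity)]
      calc t * H ^ (2 * k - 1) ≤ t * t ^ (2 * k - 1) := mul_le_mul_of_nonneg_left h1 ht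
        _ = t ^ (2 * k) := by
            rw [← pow_succ']
            congr 1
            omega
    linarith

theorem er_le (x A q a : ℕ) (hA : 0 < A) (hq : q ∈ Ioc A (2 * A)) (hAx : A ≤ x) :
    |er x q a| ≤ (x : ℝ) * (((Nat.log 2 (2 * A) : ℕ) : ℝ) + 3) / A := by
  have hq' := mem_Ioc.mp hq
  have hq0 : 0 < q := by omega
  have hA' : (0 : ℝ) < A := by exact_mod_cast hA
  have hqA : (A : ℝ) ≤ q := by exact_mod_cast hq'.1.le
  have hqr : (0 : ℝ) < q := by linarith
  have hAx' : (A : ℝ) ≤ x := by exact_mod_cast hAx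
  have hx' : (0 : ℝ) < x := by linarith
  set lg : ℝ := ((Nat.log 2 (2 * A) : ℕ) : ℝ) with hlg
  have hlg0 : 0 ≤ lg := Nat.cast_nonneg _
  have h1 : ((pc x q (a : ZMod q) : ℕ) : ℝ) ≤ x / A + 1 := by
    have h2 := pc_le x q a
    have h3 : ((pc x q (a : ZMod q) : ℕ) : ℝ) ≤ ((x / q : ℕ) : ℝ) + 1 := by exact_mod_cast h2
    have h4 : ((x / q : ℕ) : ℝ) ≤ (x : ℝ) / q := Nat.cast_div_le
    have h5 : (x : ℝ) / q ≤ x / A := div_le_div_of_nonneg_left hx'.le hA' hqA
    linarith
  have hone : (1 : ℝ) ≤ x / A := by rwa [one_le_div hA']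
  have htot : (0 : ℝ) < Nat.totient q := by exact_mod_cast Nat.totient_pos.mpr hq0
  have h2 : (Nat.primeCounting x : ℝ) / Nat.totient q ≤ x * (lg + 1) / A := by
    have h3 : (Nat.primeCounting x : ℝ) ≤ x := by
      have : Nat.primeCounting x ≤ x := by
        rw [← card_primes]
        calc ((Icc 1 x).filter Nat.Prime).card ≤ (Icc 1 x).card := card_le_card (filter_subset _ _)
          _ = x := by rw [Nat.card_Icc]; omega
      exact_mod_cast this
    have h4 := le_totient_mul q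
    have h5 : ((q.primeFactors.card : ℕ) : ℝ) ≤ lg := by
      rw [hlg]
      exact_mod_cast (card_primeFactors_le q).trans (Nat.log_mono_right hq'.2)
    rw [div_le_div_iff₀ htot hA']
    have h6 : (Nat.totient q : ℝ) * (q.primeFactors.card + 1) ≤ Nat.totient q * (lg + 1) :=
      mul_le_mul_of_nonneg_left (by linarith) htot.le
    have h7 : (A : ℝ) ≤ Nat.totient q * (lg + 1) := by linarith
    calc (Nat.primeCounting x : ℝ) * A ≤ x * (Nat.totient q * (lg + 1)) :=
          mul_le_mul h3 h7 hA'.le hx'.le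
      _ = _ := by ring
  have h3 : 0 ≤ (Nat.primeCounting x : ℝ) / Nat.totient q := by positivity
  have h4 : (0 : ℝ) ≤ ((pc x q (a : ZMod q) : ℕ) : ℝ) := Nat.cast_nonneg _
  have h5 : (x : ℝ) * (lg + 3) / A = x * (lg + 1) / A + 2 * (x / A) := by
    field_simp
    ring
  unfold er
  rw [h5, abs_le]
  have h6 : (0 : ℝ) ≤ x * (lg + 1) / A := by positivity
  constructor <;> linarith

/-- The first moment inequality. -/
theorem l1_ineq (x A N k : ℕ) (Q : Finset ℕ) (H Dm : ℝ) (hx : 0 < x) (hA : 0 < A) (hAx : A ≤ x)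
    (hN0 : 0 < N) (hQ : Q ⊆ Ioc A (2 * A)) (hN : (8 * N) ^ 2 ≤ x) (hNA : 8 * x ≤ N * A)
    (hk : 1 ≤ k) (hkN : k ≤ N) (hH : 0 < H)
    (hm : 0 ≤ (Nat.primeCounting x : ℝ) / (16 * N) - 3) (hDm : 0 ≤ Dm)
    (hD : ∀ n : ℕ, 1 ≤ n → n ≤ k * (8 * N) ^ (2 * k) → (n.divisors.card : ℝ) ≤ Dm) :
    ((Nat.primeCounting x : ℝ) / (16 * N) - 3)
        * (Q.card * ((RR N).card - ((Nat.log 2 (2 * A) : ℕ) : ℝ)))
      ≤ H * ∑ q ∈ Q, ∑ a ∈ red q, |er x q a|
        + (x : ℝ) * (((Nat.log 2 (2 * A) : ℕ) : ℝ) + 3) / A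
          * (2 * A * (Q.card * ((k : ℝ) ^ k * ((RR N).card : ℝ) ^ k)
            + ((RR N).card : ℝ) ^ (2 * k) * Dm)) / H ^ (2 * k - 1)
        + Q.card * (((Nat.log 2 (2 * A) : ℕ) : ℝ) * (RR N).card)
        + Q.card * (Nat.primeCounting x * (((Nat.log 2 (2 * A) : ℕ) : ℝ) + 1) / A
          * (RR N).card)
        + 3 * Real.sqrt (25 * (2 * A + (8 * N) ^ 2) * Q.card * x
          * Nat.primeCounting x / N) := by
  set lg : ℝ := ((Nat.log 2 (2 * A) : ℕ) : ℝ) with hlg
  have hlg0 : 0 ≤ lg := Nat.cast_nonneg _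
  have hA' : (0 : ℝ) < A := by exact_mod_cast hA
  have hx' : (0 : ℝ) < x := by exact_mod_cast hx
  set E0 : ℝ := (x : ℝ) * (lg + 3) / A with hE0
  have hE00 : 0 ≤ E0 := by positivity
  set MM : ℝ := 2 * A * (Q.card * ((k : ℝ) ^ k * ((RR N).card : ℝ) ^ k)
            + ((RR N).card : ℝ) ^ (2 * k) * Dm) with hMM
  have hmom : ∑ q ∈ Q, ∑ a ∈ range q, ‖TT (RR N) q a‖ ^ (2 * k) ≤ MM := by
    apply moment_le k (RR N) Q A (8 * N) Dm (by omega)
    · intro r hr
      exact (mem_RR.mp hr).2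
    · intro r hr
      have := (mem_RR.mp hr).1.1
      omega
    · intro r hr
      exact (mem_RR.mp hr).1.2
    · exact hQ
    · exact hD
    · exact hDm
  -- lower bound
  have herr := sum_error x A N 1 Q hx hA hN0 hQ hN hN0 (by omega)
  have hlow : ((Nat.primeCounting x : ℝ) / (16 * N) - 3)
        * (Q.card * ((RR N).card - lg)) ≤ ∑ i ∈ RR N ×ˢ Icc 1 1, -(GG x Q i).re := by
    calc ((Nat.primeCounting x : ℝ) / (16 * N) - 3) * (Q.card * ((RR N).card - lg))
        ≤ ((Nat.primeCounting x : ℝ) / (16 * N) - 3)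
          * ∑ r ∈ RR N, ((Q.filter (fun q => Nat.Coprime q r)).card : ℝ) :=
          mul_le_mul_of_nonneg_left (sum_card_ge A N Q hQ) hm
      _ = ∑ i ∈ RR N ×ˢ Icc 1 1, ((Q.filter (fun q => Nat.Coprime q i.1)).card : ℝ)
            * ((Nat.primeCounting x : ℝ) / (16 * N) - 3) := by
          rw [sum_product, mul_sum]
          refine sum_congr rfl fun r _ => ?_
          simp only
          rw [sum_const, Nat.card_Icc, nsmul_eq_mul, Nat.add_sub_cancel]
          push_cast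
          ring
      _ ≤ _ := sum_le_sum fun i hi => neg_re_GG x A N 1 Q hx hA hN0 hQ hN0 (by omega) i hi
  have hup : ∑ i ∈ RR N ×ˢ Icc 1 1, -(GG x Q i).re
      ≤ ‖∑ i ∈ RR N ×ˢ Icc 1 1, VV x Q i‖ + ∑ i ∈ RR N ×ˢ Icc 1 1, ‖VV x Q i - GG x Q i‖ := by
    have e1 : ∑ i ∈ RR N ×ˢ Icc 1 1, -(GG x Q i).re = (-∑ i ∈ RR N ×ˢ Icc 1 1, GG x Q i).re := by
      rw [Complex.neg_re, Complex.re_sum, sum_neg_distrib]
    have e2 : -∑ i ∈ RR N ×ˢ Icc 1 1, GG x Q i
        = ∑ i ∈ RR N ×ˢ Icc 1 1, (VV x Q i - GG x Q i) - ∑ i ∈ RR N ×ˢ Icc 1 1, VV x Q i := by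
      rw [sum_sub_distrib]
      ring
    rw [e1]
    refine (Complex.re_le_norm _).trans ?_
    rw [e2]
    refine (norm_sub_le _ _).trans ?_
    rw [add_comm]
    exact add_le_add le_rfl (norm_sum_le _ _)
  -- exchange
  have hex : ∑ i ∈ RR N ×ˢ Icc 1 1, VV x Q i
      = ∑ q ∈ Q, ∑ p ∈ (Icc 1 x).filter Nat.Prime, TT (RR N) q p := by
    rw [sum_product]
    have e1 : ∀ r ∈ RR N, ∑ l ∈ Icc 1 1, VV x Q (r, l)
        = ∑ q ∈ Q, (if Nat.Coprime r q then ∑ p ∈ (Icc 1 x).filter Nat.Prime,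
          e (((inv r q : ℕ) : ℤ) * ((p : ℝ) / q)) else 0) := by
      intro r _
      rw [show Icc 1 1 = ({1} : Finset ℕ) by rfl, sum_singleton]
      unfold VV
      rw [sum_filter]
      refine sum_congr rfl fun q _ => ?_
      by_cases hc : Nat.Coprime q r
      · rw [if_pos hc, if_pos hc.symm]
        refine sum_congr rfl fun p _ => ?_
        congr 1
        push_cast
        ring
      · rw [if_neg hc, if_neg (fun h => hc h.symm)]
    rw [sum_congr rfl e1, sum_comm]
    refine sum_congr rfl fun q _ => ?_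
    rw [← sum_filter, sum_comm]
    refine sum_congr rfl fun p _ => ?_
    rfl
  have hq : ∀ q ∈ Q, ‖∑ p ∈ (Icc 1 x).filter Nat.Prime, TT (RR N) q p‖
      ≤ H * ∑ a ∈ red q, |er x q a| + E0 * (∑ a ∈ range q, ‖TT (RR N) q a‖ ^ (2 * k))
          / H ^ (2 * k - 1)
        + lg * (RR N).card + Nat.primeCounting x * (lg + 1) / A * (RR N).card := by
    intro q hqQ
    have hqm := hQ hqQ
    have hq' := mem_Ioc.mp hqm
    have hq0 : 0 < q := by omega
    refine (test_decomp (RR N) x q hq0).trans ?_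
    have t1 : ∑ a ∈ red q, ‖TT (RR N) q a‖ * |er x q a|
        ≤ H * ∑ a ∈ red q, |er x q a| + E0 * (∑ a ∈ range q, ‖TT (RR N) q a‖ ^ (2 * k))
          / H ^ (2 * k - 1) := by
      have e1 : ∀ a ∈ red q, ‖TT (RR N) q a‖ * |er x q a|
          ≤ H * |er x q a| + E0 * ‖TT (RR N) q a‖ ^ (2 * k) / H ^ (2 * k - 1) := by
        intro a _
        have e2 := le_add_pow ‖TT (RR N) q a‖ H (norm_nonneg _) hH k hk
        have e3 := er_le x A q a hA hqm hAx
        have e4 : 0 ≤ ‖TT (RR N) q a‖ ^ (2 * k) / H ^ (2 * k - 1) := by positivity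
        calc ‖TT (RR N) q a‖ * |er x q a|
            ≤ (H + ‖TT (RR N) q a‖ ^ (2 * k) / H ^ (2 * k - 1)) * |er x q a| :=
              mul_le_mul_of_nonneg_right e2 (abs_nonneg _)
          _ = H * |er x q a| + (‖TT (RR N) q a‖ ^ (2 * k) / H ^ (2 * k - 1)) * |er x q a| := by
              ring
          _ ≤ H * |er x q a| + (‖TT (RR N) q a‖ ^ (2 * k) / H ^ (2 * k - 1)) * E0 :=
              add_le_add le_rfl (mul_le_mul_of_nonneg_left e3 e4)
          _ = _ := by ring
      refine (sum_le_sum e1).trans ?_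
      rw [sum_add_distrib, ← mul_sum]
      apply add_le_add le_rfl
      have e5 : ∑ a ∈ red q, E0 * ‖TT (RR N) q a‖ ^ (2 * k) / H ^ (2 * k - 1)
          = E0 * (∑ a ∈ red q, ‖TT (RR N) q a‖ ^ (2 * k)) / H ^ (2 * k - 1) := by
        rw [mul_sum, sum_div]
      rw [e5]
      apply div_le_div_of_nonneg_right _ (by positivity)
      apply mul_le_mul_of_nonneg_left _ hE00
      exact sum_le_sum_of_subset_of_nonneg (filter_subset _ _) fun _ _ _ => by positivity
    have t2 : ((Nat.log 2 q : ℕ) : ℝ) * ((RR N).card : ℝ) ≤ lg * (RR N).card := by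
      apply mul_le_mul_of_nonneg_right _ (by positivity)
      rw [hlg]
      exact_mod_cast Nat.log_mono_right hq'.2
    have t3 : (Nat.primeCounting x : ℝ) / Nat.totient q * (RR N).card
        ≤ Nat.primeCounting x * (lg + 1) / A * (RR N).card := by
      apply mul_le_mul_of_nonneg_right _ (by positivity)
      have htot : (0 : ℝ) < Nat.totient q := by exact_mod_cast Nat.totient_pos.mpr hq0
      rw [div_le_div_iff₀ htot hA', mul_assoc]
      apply mul_le_mul_of_nonneg_left _ (by positivity)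
      have h2 := le_totient_mul q
      have h3 : ((q.primeFactors.card : ℕ) : ℝ) ≤ lg := by
        rw [hlg]
        exact_mod_cast (card_primeFactors_le q).trans (Nat.log_mono_right hq'.2)
      have h4 : (Nat.totient q : ℝ) * (q.primeFactors.card + 1)
          ≤ Nat.totient q * (lg + 1) :=
        mul_le_mul_of_nonneg_left (by linarith) htot.le
      have hqA : (A : ℝ) ≤ q := by exact_mod_cast hq'.1.le
      linarith
    linarith
  have hsum : ‖∑ i ∈ RR N ×ˢ Icc 1 1, VV x Q i‖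
      ≤ H * ∑ q ∈ Q, ∑ a ∈ red q, |er x q a| + E0 * MM / H ^ (2 * k - 1)
        + Q.card * (lg * (RR N).card)
        + Q.card * (Nat.primeCounting x * (lg + 1) / A * (RR N).card) := by
    rw [hex]
    refine (norm_sum_le _ _).trans ((sum_le_sum hq).trans ?_)
    rw [sum_add_distrib, sum_add_distrib, sum_add_distrib, ← mul_sum, sum_const, sum_const,
      nsmul_eq_mul, nsmul_eq_mul]
    have e1 : ∑ q ∈ Q, E0 * (∑ a ∈ range q, ‖TT (RR N) q a‖ ^ (2 * k)) / H ^ (2 * k - 1)
        = E0 * (∑ q ∈ Q, ∑ a ∈ range q, ‖TT (RR N) q a‖ ^ (2 * k)) / H ^ (2 * k - 1) := by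
      rw [mul_sum, sum_div]
    have e2 : E0 * (∑ q ∈ Q, ∑ a ∈ range q, ‖TT (RR N) q a‖ ^ (2 * k)) / H ^ (2 * k - 1)
        ≤ E0 * MM / H ^ (2 * k - 1) := by
      apply div_le_div_of_nonneg_right _ (by positivity)
      exact mul_le_mul_of_nonneg_left hmom hE00
    rw [e1]
    linarith
  have herr' : ∑ i ∈ RR N ×ˢ Icc 1 1, ‖VV x Q i - GG x Q i‖
      ≤ 3 * Real.sqrt (25 * (2 * A + (8 * N) ^ 2) * Q.card * x * Nat.primeCounting x / N) := by
    refine herr.trans (le_of_eq ?_)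
    push_cast
    ring
  linarith

end Pool.Agent.H92.EH
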