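import Mathlib

/-!
Inequalities between real numbers for the first moment.
-/

set_option autoImplicit false

namespace Pool.Agent.H92.EH

theorem real_step3 (p A N X l lg m Qc HL Y : ℝ) (hp : 0 < p) (hA : 0 < A) (hN : 0 < N)
    (hX : 0 < X) (hl : 1 ≤ l) (hQc : 0 < Qc) (hm0 : 0 < m)
    (hpX : X ≤ 2 * l * p) (hRc : N ≤ m * l) (hRlg : 2 * lg ≤ m)
    (hm : 3 ≤ p / (32 * N)) (hlgN : 512 * lg * N ≤ p) (hN2 : 512 * N * (lg + 1) ≤ A)
    (hQ : 2 * 7680 ^ 2 * l ^ 3 * (2 * A + (8 * N) ^ 2) ≤ Qc * N)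
    (hmain : (p / (16 * N) - 3) * (Qc * (m - lg))
      ≤ HL + Y + Qc * (lg * m) + Qc * (p * (lg + 1) / A * m)
        + 3 * Real.sqrt (25 * (2 * A + (8 * N) ^ 2) * Qc * X * p / N)) :
    5 / 8 * (p * Qc * m / (64 * N)) ≤ HL + Y := by
  have hl0 : 0 < l := by linarith
  set M := p * Qc * m / (64 * N) with hM
  have hM0 : 0 < M := by positivity
  have s1 : M ≤ (p / (16 * N) - 3) * (Qc * (m - lg)) := by
    have e1 : p / (32 * N) ≤ p / (16 * N) - 3 := by
      have : p / (16 * N) = p / (32 * N) + p / (32 * N) := by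
        field_simp
        norm_num
      linarith
    have e2 : m / 2 ≤ m - lg := by linarith
    calc M = (p / (32 * N)) * (Qc * (m / 2)) := by
          rw [hM]
          field_simp
          norm_num
      _ ≤ _ := by
          apply mul_le_mul e1 (mul_le_mul_of_nonneg_left e2 hQc.le) (by positivity)
          exact le_trans (by positivity) e1
  have s2 : Qc * (lg * m) ≤ M / 8 := by
    have e1 : lg ≤ p / (512 * N) := by
      rw [le_div_iff₀ (by positivity)]
      linarith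
    calc Qc * (lg * m) ≤ Qc * (p / (512 * N) * m) := by
          apply mul_le_mul_of_nonneg_left _ hQc.le
          exact mul_le_mul_of_nonneg_right e1 (by positivity)
      _ = M / 8 := by
          rw [hM]
          field_simp
          norm_num
  have s3 : Qc * (p * (lg + 1) / A * m) ≤ M / 8 := by
    have e4 : (lg + 1) / A ≤ 1 / (512 * N) := by
      rw [div_le_div_iff₀ hA (by positivity)]
      linarith
    calc Qc * (p * (lg + 1) / A * m) = (Qc * p * m) * ((lg + 1) / A) := by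
          ring
      _ ≤ (Qc * p * m) * (1 / (512 * N)) := mul_le_mul_of_nonneg_left e4 (by positivity)
      _ = M / 8 := by
          rw [hM]
          field_simp
          norm_num
  have s4 : 3 * Real.sqrt (25 * (2 * A + (8 * N) ^ 2) * Qc * X * p / N) ≤ M / 8 := by
    have e1 : Real.sqrt (25 * (2 * A + (8 * N) ^ 2) * Qc * X * p / N)
        ≤ p * Qc * m / (1536 * N) := by
      apply Real.sqrt_le_iff.mpr
      refine ⟨by positivity, ?_⟩
      have e2 : 7680 ^ 2 * (2 * A + (8 * N) ^ 2) * N * X ≤ p * Qc * m ^ 2 := by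
        have e3 : N ^ 2 ≤ m ^ 2 * l ^ 2 := by
          rw [← mul_pow]
          exact pow_le_pow_left₀ hN.le hRc 2
        have e4 : (7680 ^ 2 * (2 * A + (8 * N) ^ 2) * N * X) * (2 * l ^ 3 * N)
            ≤ (p * Qc * m ^ 2) * (2 * l ^ 3 * N) := by
          calc (7680 ^ 2 * (2 * A + (8 * N) ^ 2) * N * X) * (2 * l ^ 3 * N)
              = (2 * 7680 ^ 2 * l ^ 3 * (2 * A + (8 * N) ^ 2)) * (N ^ 2 * X) := by ring
            _ ≤ (Qc * N) * (N ^ 2 * X) := mul_le_mul_of_nonneg_right hQ (by positivity)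
            _ ≤ (Qc * N) * ((m ^ 2 * l ^ 2) * (2 * l * p)) := by
                apply mul_le_mul_of_nonneg_left _ (by positivity)
                exact mul_le_mul e3 hpX hX.le (by positivity)
            _ = _ := by ring
        exact le_of_mul_le_mul_right e4 (by positivity)
      rw [div_pow, div_le_div_iff₀ hN (by positivity)]
      calc 25 * (2 * A + (8 * N) ^ 2) * Qc * X * p * (1536 * N) ^ 2
          = (7680 ^ 2 * (2 * A + (8 * N) ^ 2) * N * X) * (p * Qc * N) := by ring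
        _ ≤ (p * Qc * m ^ 2) * (p * Qc * N) := mul_le_mul_of_nonneg_right e2 (by positivity)
        _ = (p * Qc * m) ^ 2 * N := by ring
    calc 3 * Real.sqrt (25 * (2 * A + (8 * N) ^ 2) * Qc * X * p / N)
        ≤ 3 * (p * Qc * m / (1536 * N)) := mul_le_mul_of_nonneg_left e1 (by norm_num)
      _ = M / 8 := by
          rw [hM]
          field_simp
          norm_num
  linarith

/-- The tail of the high moment is small. -/
theorem real_step4 (k : ℕ) (hk : 1 ≤ k) (p A N X X1 l lg m Qc t H : ℝ) (hp : 0 < p) (hA : 0 < A)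
    (hN : 0 < N) (hX : 0 < X) (hX1 : 0 < X1) (hl : 1 ≤ l) (hQc : 0 < Qc) (hm0 : 0 < m)
    (ht : 1 ≤ t) (hH : 0 < H) (hlg0 : 0 ≤ lg)
    (hpX : X ≤ 2 * l * p) (hlg : lg + 3 ≤ 5 * l) (hm8 : m ≤ 8 * N) (hN9 : N ≤ 9 * X1)
    (hQt : A ≤ Qc * t)
    (hH1 : t ^ 4 * X1 ^ k ≤ H ^ (2 * k - 1)) (hH2 : t ^ 4 * X1 ^ (2 * k) ≤ H ^ (2 * k - 1) * A)
    (hK1 : 20480 * (k : ℝ) ^ k * 72 ^ k * l ^ 2 ≤ t)
    (hK2 : 20480 * 72 ^ (2 * k) * l ^ 2 ≤ t) :
    X * (lg + 3) / A * (2 * A * (Qc * ((k : ℝ) ^ k * m ^ k) + m ^ (2 * k) * t))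
      / H ^ (2 * k - 1) ≤ p * Qc * m / (64 * N) / 8 := by
  have hl0 : 0 < l := by linarith
  have ht0 : 0 < t := by linarith
  obtain ⟨j, rfl⟩ : ∃ j, k = j + 1 := ⟨k - 1, by omega⟩
  set G := H ^ (2 * (j + 1) - 1) with hG
  have hG0 : 0 < G := by positivity
  have hm72 : m ≤ 72 * X1 := by linarith
  have hl1 : X * (lg + 3) ≤ 10 * l ^ 2 * p := by
    calc X * (lg + 3) ≤ (2 * l * p) * (5 * l) := mul_le_mul hpX hlg (by linarith) (by positivity)
      _ = 10 * l ^ 2 * p := by ring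
  have ht4 : t ≤ t ^ 4 := by
    calc t = t ^ 1 := (pow_one t).symm
      _ ≤ t ^ 4 := pow_le_pow_right₀ ht (by norm_num)
  have ht2 : t * t ≤ t ^ 3 := by
    calc t * t = t ^ 2 := by ring
      _ ≤ t ^ 3 := pow_le_pow_right₀ ht (by norm_num)
  -- first part
  have ha : 1024 * N * (2 * (10 * l ^ 2 * p)) * (((j + 1 : ℕ) : ℝ) ^ (j + 1) * m ^ j) ≤ p * G := by
    have e1 : m ^ j ≤ (72 * X1) ^ j := pow_le_pow_left₀ hm0.le hm72 j
    calc 1024 * N * (2 * (10 * l ^ 2 * p)) * (((j + 1 : ℕ) : ℝ) ^ (j + 1) * m ^ j)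
        ≤ 1024 * (9 * X1) * (2 * (10 * l ^ 2 * p))
            * (((j + 1 : ℕ) : ℝ) ^ (j + 1) * (72 * X1) ^ j) := by
          apply mul_le_mul
          · apply mul_le_mul_of_nonneg_right _ (by positivity)
            linarith
          · exact mul_le_mul_of_nonneg_left e1 (by positivity)
          · positivity
          · positivity
      _ = (20480 * ((j + 1 : ℕ) : ℝ) ^ (j + 1) * 72 ^ j * 9 * l ^ 2) * (X1 ^ (j + 1) * p) := by
          rw [mul_pow]
          ring
      _ ≤ (20480 * ((j + 1 : ℕ) : ℝ) ^ (j + 1) * 72 ^ (j + 1) * l ^ 2) * (X1 ^ (j + 1) * p) := by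
          apply mul_le_mul_of_nonneg_right _ (by positivity)
          apply mul_le_mul_of_nonneg_right _ (by positivity)
          rw [pow_succ 72 j]
          have : 0 ≤ 20480 * ((j + 1 : ℕ) : ℝ) ^ (j + 1) * 72 ^ j := by positivity
          nlinarith
      _ ≤ t ^ 4 * (X1 ^ (j + 1) * p) :=
          mul_le_mul_of_nonneg_right (hK1.trans ht4) (by positivity)
      _ = (t ^ 4 * X1 ^ (j + 1)) * p := by ring
      _ ≤ G * p := mul_le_mul_of_nonneg_right hH1 hp.le
      _ = p * G := mul_comm _ _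
  -- second part
  have hb : 1024 * N * (2 * (10 * l ^ 2 * p)) * (m ^ (2 * j + 1) * t) ≤ p * G * Qc := by
    have e1 : m ^ (2 * j + 1) ≤ (72 * X1) ^ (2 * j + 1) := pow_le_pow_left₀ hm0.le hm72 _
    have e2 : 1024 * N * (2 * (10 * l ^ 2 * p)) * (m ^ (2 * j + 1) * t) * t
        ≤ p * G * Qc * t := by
      calc 1024 * N * (2 * (10 * l ^ 2 * p)) * (m ^ (2 * j + 1) * t) * t
          ≤ 1024 * (9 * X1) * (2 * (10 * l ^ 2 * p)) * ((72 * X1) ^ (2 * j + 1) * t) * t := by
            apply mul_le_mul_of_nonneg_right _ ht0.le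
            apply mul_le_mul
            · apply mul_le_mul_of_nonneg_right _ (by positivity)
              linarith
            · exact mul_le_mul_of_nonneg_right e1 ht0.le
            · positivity
            · positivity
        _ = (20480 * 72 ^ (2 * j + 1) * 9 * l ^ 2) * (t * t) * (X1 ^ (2 * (j + 1)) * p) := by
            rw [mul_pow]
            ring
        _ ≤ t * (t * t) * (X1 ^ (2 * (j + 1)) * p) := by
            apply mul_le_mul_of_nonneg_right _ (by positivity)
            apply mul_le_mul_of_nonneg_right _ (by positivity)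
            refine le_trans ?_ hK2
            apply mul_le_mul_of_nonneg_right _ (by positivity)
            have e3 : (72 : ℝ) ^ (2 * (j + 1)) = 72 ^ (2 * j + 1) * 72 := by
              rw [← pow_succ]
              congr 1
            rw [e3]
            have : (0 : ℝ) ≤ 72 ^ (2 * j + 1) := by positivity
            linarith
        _ ≤ t ^ 4 * (X1 ^ (2 * (j + 1)) * p) := by
            apply mul_le_mul_of_nonneg_right _ (by positivity)
            calc t * (t * t) ≤ t * t ^ 3 := mul_le_mul_of_nonneg_left ht2 ht0.le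
              _ = t ^ 4 := by ring
        _ = (t ^ 4 * X1 ^ (2 * (j + 1))) * p := by ring
        _ ≤ (G * A) * p := mul_le_mul_of_nonneg_right hH2 hp.le
        _ ≤ (G * (Qc * t)) * p := by
            apply mul_le_mul_of_nonneg_right _ hp.le
            exact mul_le_mul_of_nonneg_left hQt hG0.le
        _ = p * G * Qc * t := by ring
    exact le_of_mul_le_mul_right e2 ht0
  have hsum : X * (lg + 3) * (2 * (Qc * (((j + 1 : ℕ) : ℝ) ^ (j + 1) * m ^ (j + 1))
      + m ^ (2 * (j + 1)) * t)) * (512 * N) ≤ p * Qc * m * G := by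
    have e1 : X * (lg + 3) * (2 * (Qc * (((j + 1 : ℕ) : ℝ) ^ (j + 1) * m ^ (j + 1))
        + m ^ (2 * (j + 1)) * t)) * (512 * N)
        ≤ (10 * l ^ 2 * p) * (2 * (Qc * (((j + 1 : ℕ) : ℝ) ^ (j + 1) * m ^ (j + 1))
        + m ^ (2 * (j + 1)) * t)) * (512 * N) := by
      apply mul_le_mul_of_nonneg_right _ (by positivity)
      exact mul_le_mul_of_nonneg_right hl1 (by positivity)
    refine e1.trans ?_
    have e2 : (10 * l ^ 2 * p) * (2 * (Qc * (((j + 1 : ℕ) : ℝ) ^ (j + 1) * m ^ (j + 1))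
        + m ^ (2 * (j + 1)) * t)) * (512 * N)
        = (1024 * N * (2 * (10 * l ^ 2 * p)) * (((j + 1 : ℕ) : ℝ) ^ (j + 1) * m ^ j)) * (Qc * m) / 2
          + (1024 * N * (2 * (10 * l ^ 2 * p)) * (m ^ (2 * j + 1) * t)) * m / 2 := by
      rw [show 2 * (j + 1) = 2 * j + 1 + 1 by ring, pow_succ m (2 * j + 1), pow_succ m j]
      ring
    rw [e2]
    have e3 := mul_le_mul_of_nonneg_right ha (by positivity : 0 ≤ Qc * m)
    have e4 := mul_le_mul_of_nonneg_right hb hm0.le
    calc _ ≤ (p * G) * (Qc * m) / 2 + (p * G * Qc) * m / 2 := by linarith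
      _ = p * Qc * m * G := by ring
  have hfin : X * (lg + 3) / A * (2 * A * (Qc * (((j + 1 : ℕ) : ℝ) ^ (j + 1) * m ^ (j + 1))
      + m ^ (2 * (j + 1)) * t)) / G
      = X * (lg + 3) * (2 * (Qc * (((j + 1 : ℕ) : ℝ) ^ (j + 1) * m ^ (j + 1))
      + m ^ (2 * (j + 1)) * t)) / G := by
    field_simp
  rw [hfin, div_div, div_le_div_iff₀ hG0 (by positivity)]
  calc _ = X * (lg + 3) * (2 * (Qc * (((j + 1 : ℕ) : ℝ) ^ (j + 1) * m ^ (j + 1))
      + m ^ (2 * (j + 1)) * t)) * (512 * N) := by ring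
    _ ≤ _ := hsum

end Pool.Agent.H92.EH
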