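import Mathlib
import Pool.Agent.H92.EH2.Except
import Pool.Agent.H92.EH3.L1
import Pool.Agent.H92.EH3.Real3

/-!
The first moment bound for fixed `x`.
-/

set_option autoImplicit false

namespace Pool.Agent.H92.EH

open Finset

theorem l1_core (k N₀ : ℕ) (hk : 1 ≤ k)
    (hN₀ : ∀ N : ℕ, N₀ ≤ N → (N : ℝ) ≤ (RR N).card * Real.log N)
    (x A : ℕ) (Q : Finset ℕ) (l t u : ℝ) (hl : l = Real.log x) (hl1 : 4 ≤ l)
    (ht1 : 117964800 * l ^ 4 ≤ t) (ht2 : (N₀ : ℝ) + k ≤ t)
    (hK1 : 20480 * (k : ℝ) ^ k * 72 ^ k * l ^ 2 ≤ t)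
    (hK2 : 20480 * 72 ^ (2 * k) * l ^ 2 ≤ t)
    (hpi : (x : ℝ) ≤ 2 * l * Nat.primeCounting x)
    (hA1 : Real.sqrt x * t ^ 8 ≤ A) (hA2 : (A : ℝ) * t ^ 8 ≤ x)
    (hQ : Q ⊆ Ioc A (2 * A)) (hQc : (A : ℝ) ≤ Q.card * t)
    (hu : 0 < u) (hu1 : u ^ (2 * k - 1) ≤ ((x : ℝ) / A) ^ (k - 1))
    (hu2 : u ^ (2 * k - 1) ≤ (A : ℝ) ^ 2 / x)
    (hD : ∀ n : ℕ, 1 ≤ n → (n : ℝ) ≤ k * (x : ℝ) ^ k → (n.divisors.card : ℝ) ≤ t) :
    (Q.card : ℝ) * A * u ≤ t ^ 8 * ∑ q ∈ Q, ∑ a ∈ red q, |er x q a| := by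
  have hl0 : 0 < l := by linarith
  have hx0 : 0 < x := by
    rcases Nat.eq_zero_or_pos x with h | h
    · rw [h, Nat.cast_zero, Real.log_zero] at hl
      linarith
    · exact h
  have hX : (0 : ℝ) < x := by exact_mod_cast hx0
  have hX1 : (1 : ℝ) ≤ x := by exact_mod_cast hx0
  obtain ⟨s, hs⟩ : ∃ s, s = Real.sqrt x := ⟨_, rfl⟩
  have hss : s * s = x := by rw [hs]; exact Real.mul_self_sqrt hX.le
  have hs1 : 1 ≤ s := by rw [hs]; exact Real.one_le_sqrt.mpr hX1
  have hs0 : 0 < s := by linarith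
  rw [← hs] at hA1
  have hl4 : 1 ≤ l ^ 4 := one_le_pow₀ (by linarith)
  have ht0 : 117964800 ≤ t := by linarith
  have htp : 0 < t := by linarith
  have ht1' : 1 ≤ t := by linarith
  have hl34 : l ^ 3 ≤ l ^ 4 := pow_le_pow_right₀ (by linarith) (by norm_num)
  have hl24 : l ^ 2 ≤ l ^ 4 := pow_le_pow_right₀ (by linarith) (by norm_num)
  have hl14 : l ≤ l ^ 4 := by
    calc l = l ^ 1 := (pow_one l).symm
      _ ≤ l ^ 4 := pow_le_pow_right₀ (by linarith) (by norm_num)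
  have ht8 : t ≤ t ^ 8 := by
    calc t = t ^ 1 := (pow_one t).symm
      _ ≤ t ^ 8 := pow_le_pow_right₀ ht1' (by norm_num)
  have ht8p : 0 < t ^ 8 := by positivity
  have hA' : (0 : ℝ) < A := lt_of_lt_of_le (by positivity) hA1
  have hA0 : 0 < A := by exact_mod_cast hA'
  have hAx' : (A : ℝ) ≤ x := by
    calc (A : ℝ) = A * 1 := (mul_one _).symm
      _ ≤ A * t ^ 8 := mul_le_mul_of_nonneg_left (by linarith) hA'.le
      _ ≤ x := hA2
  have hAx : A ≤ x := by exact_mod_cast hAx'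
  obtain ⟨X1, hX1def⟩ : ∃ y : ℝ, y = (x : ℝ) / A := ⟨_, rfl⟩
  have hX1t : t ^ 8 ≤ X1 := by
    rw [hX1def, le_div_iff₀ hA']
    linarith
  have hX1p : 0 < X1 := by linarith
  have hX1A : X1 * A = x := by
    rw [hX1def]
    field_simp
  have hX1s : X1 * t ^ 8 ≤ s := by
    have h1 : (X1 * t ^ 8) * s ≤ s * s := by
      calc (X1 * t ^ 8) * s = X1 * (s * t ^ 8) := by ring
        _ ≤ X1 * A := mul_le_mul_of_nonneg_left hA1 hX1p.le
        _ = s * s := by rw [hX1A, hss]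
    exact le_of_mul_le_mul_right h1 hs0
  -- `N`
  obtain ⟨K0, hK0⟩ : ∃ m : ℕ, m = 8 * x / A := ⟨_, rfl⟩
  obtain ⟨N, hN⟩ : ∃ m : ℕ, m = K0 + 1 := ⟨_, rfl⟩
  have hNpos : 0 < N := by omega
  have hN' : (0 : ℝ) < N := by exact_mod_cast hNpos
  have hNA : 8 * x ≤ N * A := by
    have h1 : 8 * x < A * (K0 + 1) := by
      rw [hK0]
      exact Nat.lt_mul_div_succ (8 * x) hA0
    rw [hN]
    exact h1.le.trans (le_of_eq (mul_comm _ _))
  have hN8 : 8 * X1 ≤ N := by
    have h1 : (8 : ℝ) * x ≤ N * A := by exact_mod_cast hNA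
    rw [hX1def, mul_div_assoc', div_le_iff₀ hA']
    exact h1
  have hN9 : (N : ℝ) ≤ 9 * X1 := by
    have h2 : (K0 : ℝ) ≤ ((8 * x : ℕ) : ℝ) / A := by
      rw [hK0]
      exact Nat.cast_div_le
    have h3 : ((8 * x : ℕ) : ℝ) / A = 8 * X1 := by
      rw [hX1def]
      push_cast
      ring
    rw [h3] at h2
    rw [hN]
    push_cast
    linarith
  have htN : t ≤ N := by linarith
  have hX1sq : X1 * X1 * t ^ 16 ≤ x := by
    calc X1 * X1 * t ^ 16 = (X1 * t ^ 8) * (X1 * t ^ 8) := by ring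
      _ ≤ s * s := mul_le_mul hX1s hX1s (by positivity) hs0.le
      _ = x := hss
  have ht15 : 5184 * t ≤ t ^ 16 := by
    have h1 : (1 : ℝ) ≤ t ^ 14 := one_le_pow₀ ht1'
    calc 5184 * t ≤ t * t := mul_le_mul_of_nonneg_right (by linarith) htp.le
      _ = t * t * 1 := (mul_one _).symm
      _ ≤ t * t * t ^ 14 := mul_le_mul_of_nonneg_left h1 (by positivity)
      _ = t ^ 16 := by ring
  have hN64t : (8 * (N : ℝ)) ^ 2 * t ≤ x := by
    calc (8 * (N : ℝ)) ^ 2 * t ≤ (8 * (9 * X1)) ^ 2 * t := by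
          apply mul_le_mul_of_nonneg_right _ htp.le
          apply pow_le_pow_left₀ (by positivity)
          linarith
      _ = X1 * X1 * (5184 * t) := by ring
      _ ≤ X1 * X1 * t ^ 16 := mul_le_mul_of_nonneg_left ht15 (by positivity)
      _ ≤ x := hX1sq
  have hN64 : (8 * (N : ℝ)) ^ 2 ≤ x := by
    calc (8 * (N : ℝ)) ^ 2 = (8 * (N : ℝ)) ^ 2 * 1 := (mul_one _).symm
      _ ≤ (8 * (N : ℝ)) ^ 2 * t := mul_le_mul_of_nonneg_left ht1' (by positivity)
      _ ≤ x := hN64t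
  have hN64' : (8 * N) ^ 2 ≤ x := by exact_mod_cast hN64
  have hNx : N ≤ x := by
    have h1 : N ≤ (8 * N) ^ 2 := by
      have e1 : (8 * N) ^ 2 = 64 * (N * N) := by ring
      have e2 := Nat.le_mul_self N
      omega
    exact h1.trans hN64'
  have hkN : k ≤ N := by
    have : (k : ℝ) ≤ N := by
      have : (0 : ℝ) ≤ N₀ := Nat.cast_nonneg _
      linarith
    exact_mod_cast this
  have hNN₀ : N₀ ≤ N := by
    have : (N₀ : ℝ) ≤ N := by
      have : (0 : ℝ) ≤ k := Nat.cast_nonneg _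
      linarith
    exact_mod_cast this
  -- Chebyshev
  obtain ⟨p, hp⟩ : ∃ y : ℝ, y = (Nat.primeCounting x : ℝ) := ⟨_, rfl⟩
  rw [← hp] at hpi
  have hp0 : 0 < p := by
    by_contra h
    push Not at h
    have : 2 * l * p ≤ 0 := mul_nonpos_of_nonneg_of_nonpos (by positivity) h
    linarith
  have hpN : 1536 * l * N ≤ p := by
    -- `2 l * 1536 l N ≤ x`
    have h1 : 3072 * l ^ 2 * (9 * X1) ≤ x := by
      have h2 : 27648 * l ^ 2 ≤ t ^ 8 := by linarith
      calc 3072 * l ^ 2 * (9 * X1) = X1 * (27648 * l ^ 2) := by ring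
        _ ≤ X1 * t ^ 8 := mul_le_mul_of_nonneg_left h2 hX1p.le
        _ ≤ s := hX1s
        _ = s * 1 := (mul_one _).symm
        _ ≤ s * s := mul_le_mul_of_nonneg_left hs1 hs0.le
        _ = x := hss
    have h3 : (2 * l) * (1536 * l * N) ≤ (2 * l) * p := by
      calc (2 * l) * (1536 * l * N) = 3072 * l ^ 2 * N := by ring
        _ ≤ 3072 * l ^ 2 * (9 * X1) := mul_le_mul_of_nonneg_left hN9 (by positivity)
        _ ≤ x := h1
        _ ≤ 2 * l * p := hpi
    exact le_of_mul_le_mul_left h3 (by positivity)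
  have hmm : 3 ≤ p / (32 * N) := by
    rw [le_div_iff₀ (by positivity)]
    have : 96 * (N : ℝ) ≤ 1536 * l * N := mul_le_mul_of_nonneg_right (by linarith) hN'.le
    linarith
  -- the logarithm
  obtain ⟨lg, hlg⟩ : ∃ y : ℝ, y = ((Nat.log 2 (2 * A) : ℕ) : ℝ) := ⟨_, rfl⟩
  have hlg0 : 0 ≤ lg := by rw [hlg]; exact Nat.cast_nonneg _
  have hlg3 : lg ≤ 3 * l := by
    rw [hlg]
    have h1 := natlog_le' (2 * A) (by omega)
    have h2 : Real.log ((2 * A : ℕ) : ℝ) ≤ 1 + l := by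
      push_cast
      rw [Real.log_mul (by norm_num) (by positivity)]
      have h3 : Real.log (A : ℝ) ≤ l := by
        rw [hl]
        exact Real.log_le_log hA' hAx'
      have := Real.log_two_lt_d9
      linarith
    linarith
  -- number of primes
  obtain ⟨m, hm⟩ : ∃ y : ℝ, y = ((RR N).card : ℝ) := ⟨_, rfl⟩
  have hml : (N : ℝ) ≤ m * l := by
    rw [hm]
    refine (hN₀ N hNN₀).trans ?_
    apply mul_le_mul_of_nonneg_left _ (Nat.cast_nonneg _)
    rw [hl]
    exact Real.log_le_log hN' (by exact_mod_cast hNx)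
  have hm0 : 0 < m := by
    by_contra h
    push Not at h
    have : m * l ≤ 0 := mul_nonpos_of_nonpos_of_nonneg h hl0.le
    linarith
  have hm8 : m ≤ 8 * N := by
    rw [hm]
    have h1 : (RR N).card ≤ 8 * N := by
      calc (RR N).card ≤ (Ioc N (8 * N)).card := card_le_card (filter_subset _ _)
        _ = 8 * N - N := Nat.card_Ioc _ _
        _ ≤ 8 * N := Nat.sub_le _ _
    exact_mod_cast h1
  have hmlg : 2 * lg ≤ m := by
    have h3 : (6 * l) * l ≤ m * l := by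
      calc (6 * l) * l = 6 * l ^ 2 := by ring
        _ ≤ t := by linarith
        _ ≤ N := htN
        _ ≤ m * l := hml
    have h4 := le_of_mul_le_mul_right h3 hl0
    linarith
  -- the size of `Q`
  have hQ0 : (0 : ℝ) < Q.card := by
    by_contra h
    push Not at h
    have : (Q.card : ℝ) * t ≤ 0 := mul_nonpos_of_nonpos_of_nonneg h htp.le
    linarith
  have hlt : 117964800 * l ^ 3 ≤ t := by linarith
  have hQbig : 2 * 7680 ^ 2 * l ^ 3 * (2 * A + (8 * (N : ℝ)) ^ 2) ≤ Q.card * N := by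
    have h1 : (2 * 7680 ^ 2 * l ^ 3 * (2 * A + (8 * (N : ℝ)) ^ 2)) * t ≤ (Q.card * N) * t := by
      have h2 : 2 * 7680 ^ 2 * l ^ 3 ≤ t := by
        have : (2 : ℝ) * 7680 ^ 2 = 117964800 := by norm_num
        rw [this]
        exact hlt
      have h3 : (2 * (A : ℝ)) * t * t ≤ 4 * x := by
        have h4 : t * t ≤ t ^ 8 := by
          calc t * t = t ^ 2 := by ring
            _ ≤ t ^ 8 := pow_le_pow_right₀ ht1' (by norm_num)
        have h5 : (A : ℝ) * (t * t) ≤ A * t ^ 8 := mul_le_mul_of_nonneg_left h4 hA'.le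
        have h6 : (2 * (A : ℝ)) * t * t = 2 * (A * (t * t)) := by ring
        linarith
      have h7 : (8 * (N : ℝ)) ^ 2 * t * t ≤ 4 * x := by
        have h8 : 5184 * (t * t) ≤ t ^ 16 := by
          have h1 : (1 : ℝ) ≤ t ^ 13 := one_le_pow₀ ht1'
          calc 5184 * (t * t) ≤ t * (t * t) := mul_le_mul_of_nonneg_right (by linarith) (by positivity)
            _ = t * t * t * 1 := by ring
            _ ≤ t * t * t * t ^ 13 := mul_le_mul_of_nonneg_left h1 (by positivity)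
            _ = t ^ 16 := by ring
        calc (8 * (N : ℝ)) ^ 2 * t * t ≤ (8 * (9 * X1)) ^ 2 * t * t := by
              apply mul_le_mul_of_nonneg_right _ htp.le
              apply mul_le_mul_of_nonneg_right _ htp.le
              apply pow_le_pow_left₀ (by positivity)
              linarith
          _ = X1 * X1 * (5184 * (t * t)) := by ring
          _ ≤ X1 * X1 * t ^ 16 := mul_le_mul_of_nonneg_left h8 (by positivity)
          _ ≤ x := hX1sq
          _ ≤ 4 * x := by linarith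
      calc (2 * 7680 ^ 2 * l ^ 3 * (2 * A + (8 * (N : ℝ)) ^ 2)) * t
          ≤ (t * (2 * A + (8 * (N : ℝ)) ^ 2)) * t := by
            apply mul_le_mul_of_nonneg_right _ htp.le
            exact mul_le_mul_of_nonneg_right h2 (by positivity)
        _ = (2 * (A : ℝ)) * t * t + (8 * (N : ℝ)) ^ 2 * t * t := by ring
        _ ≤ 8 * x := by linarith
        _ = A * (8 * X1) := by rw [← hX1A]; ring
        _ ≤ (Q.card * t) * N := mul_le_mul hQc hN8 (by positivity) (by positivity)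
        _ = (Q.card * N) * t := by ring
    exact le_of_mul_le_mul_right h1 htp
  have hN2 : 512 * (N : ℝ) * (lg + 1) ≤ A := by
    have h1 : lg + 1 ≤ 4 * l := by linarith
    have h2 : 18432 * l ≤ t ^ 8 := by linarith
    have h3 : X1 * t ^ 8 ≤ A := by
      have h4 : s ≤ A := by
        have : s * 1 ≤ s * t ^ 8 := mul_le_mul_of_nonneg_left (by linarith) hs0.le
        linarith
      linarith
    calc 512 * (N : ℝ) * (lg + 1) ≤ 512 * (9 * X1) * (4 * l) := by
          apply mul_le_mul _ h1 (by linarith) (by positivity)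
          linarith
      _ = X1 * (18432 * l) := by ring
      _ ≤ X1 * t ^ 8 := mul_le_mul_of_nonneg_left h2 hX1p.le
      _ ≤ A := h3
  -- `H`
  obtain ⟨H, hH⟩ : ∃ y : ℝ, y = X1 * t ^ 4 / u := ⟨_, rfl⟩
  have hH0 : 0 < H := by rw [hH]; positivity
  obtain ⟨j, hj⟩ : ∃ j, k = j + 1 := ⟨k - 1, by omega⟩
  have hexp : 2 * k - 1 = 2 * j + 1 := by omega
  have hHpow : H ^ (2 * k - 1) * u ^ (2 * k - 1) = (X1 * t ^ 4) ^ (2 * k - 1) := by
    rw [← mul_pow, hH]
    congr 1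
    field_simp
  have ht4pow : t ^ 4 ≤ (t ^ 4) ^ (2 * k - 1) := by
    calc t ^ 4 = (t ^ 4) ^ 1 := (pow_one _).symm
      _ ≤ (t ^ 4) ^ (2 * k - 1) := pow_le_pow_right₀ (one_le_pow₀ ht1') (by omega)
  have hupos : 0 < u ^ (2 * k - 1) := by positivity
  have hH1 : t ^ 4 * X1 ^ k ≤ H ^ (2 * k - 1) := by
    have h1 : (t ^ 4 * X1 ^ k) * u ^ (2 * k - 1) ≤ H ^ (2 * k - 1) * u ^ (2 * k - 1) := by
      rw [hHpow, mul_pow]
      rw [← hX1def] at hu1
      calc (t ^ 4 * X1 ^ k) * u ^ (2 * k - 1) ≤ (t ^ 4 * X1 ^ k) * X1 ^ (k - 1) :=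
            mul_le_mul_of_nonneg_left hu1 (by positivity)
        _ = t ^ 4 * X1 ^ (2 * k - 1) := by
            rw [mul_assoc, ← pow_add]
            congr 2
            omega
        _ ≤ (t ^ 4) ^ (2 * k - 1) * X1 ^ (2 * k - 1) :=
            mul_le_mul_of_nonneg_right ht4pow (by positivity)
        _ = X1 ^ (2 * k - 1) * (t ^ 4) ^ (2 * k - 1) := mul_comm _ _
    exact le_of_mul_le_mul_right h1 hupos
  have hH2 : t ^ 4 * X1 ^ (2 * k) ≤ H ^ (2 * k - 1) * A := by
    have h0 : u ^ (2 * k - 1) * X1 ≤ A := by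
      have h1 : (A : ℝ) ^ 2 / x * X1 = A := by
        rw [hX1def]
        field_simp
      calc u ^ (2 * k - 1) * X1 ≤ (A : ℝ) ^ 2 / x * X1 := mul_le_mul_of_nonneg_right hu2 hX1p.le
        _ = A := h1
    have h1 : (t ^ 4 * X1 ^ (2 * k)) * u ^ (2 * k - 1)
        ≤ (H ^ (2 * k - 1) * A) * u ^ (2 * k - 1) := by
      have h2 : (H ^ (2 * k - 1) * A) * u ^ (2 * k - 1) = (X1 * t ^ 4) ^ (2 * k - 1) * A := by
        rw [← hHpow]
        ring
      rw [h2, mul_pow]
      calc (t ^ 4 * X1 ^ (2 * k)) * u ^ (2 * k - 1)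
          = t ^ 4 * X1 ^ (2 * k - 1) * (u ^ (2 * k - 1) * X1) := by
            have e1 : X1 ^ (2 * k) = X1 ^ (2 * k - 1) * X1 := by
              rw [← pow_succ]
              congr 1
              omega
            rw [e1]
            ring
        _ ≤ t ^ 4 * X1 ^ (2 * k - 1) * A := mul_le_mul_of_nonneg_left h0 (by positivity)
        _ ≤ (t ^ 4) ^ (2 * k - 1) * X1 ^ (2 * k - 1) * A := by
            apply mul_le_mul_of_nonneg_right _ hA'.le
            exact mul_le_mul_of_nonneg_right ht4pow (by positivity)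
        _ = X1 ^ (2 * k - 1) * (t ^ 4) ^ (2 * k - 1) * A := by ring
    exact le_of_mul_le_mul_right h1 hupos
  -- the main inequality
  have hDm : ∀ n : ℕ, 1 ≤ n → n ≤ k * (8 * N) ^ (2 * k) → (n.divisors.card : ℝ) ≤ t := by
    intro n hn1 hn2
    apply hD n hn1
    have h1 : (n : ℝ) ≤ k * (8 * (N : ℝ)) ^ (2 * k) := by exact_mod_cast hn2
    refine h1.trans ?_
    apply mul_le_mul_of_nonneg_left _ (by positivity)
    rw [pow_mul]
    exact pow_le_pow_left₀ (by positivity) hN64 k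
  have hm3 : 0 ≤ (Nat.primeCounting x : ℝ) / (16 * N) - 3 := by
    rw [← hp]
    have : p / (16 * N) = p / (32 * N) + p / (32 * N) := by
      field_simp
      norm_num
    rw [this]
    linarith
  have hmain := l1_ineq x A N k Q H t hx0 hA0 hAx hNpos hQ hN64' hNA hk hkN hH0 hm3 htp.le hDm
  rw [← hlg, ← hm, ← hp] at hmain
  have h3 := real_step3 p A N x l lg m Q.card (H * ∑ q ∈ Q, ∑ a ∈ red q, |er x q a|)
    ((x : ℝ) * (lg + 3) / A * (2 * A * (Q.card * ((k : ℝ) ^ k * m ^ k) + m ^ (2 * k) * t))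
      / H ^ (2 * k - 1)) hp0 hA' hN' hX (by linarith) hQ0 hm0 hpi hml hmlg hmm
    (by
      have h1 : 512 * lg * N ≤ 512 * (3 * l) * N := by
        apply mul_le_mul_of_nonneg_right _ hN'.le
        linarith
      linarith)
    hN2 hQbig hmain
  have h4 := real_step4 k hk p A N x X1 l lg m Q.card t H hp0 hA' hN' hX hX1p (by linarith) hQ0
    hm0 ht1' hH0 hlg0 hpi (by linarith) hm8 hN9 hQc hH1 hH2 hK1 hK2
  set LL := ∑ q ∈ Q, ∑ a ∈ red q, |er x q a| with hLL
  have hM0 : 0 < p * Q.card * m / (64 * N) := by positivity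
  have h5 : p * Q.card * m / (64 * N) / 2 ≤ H * LL := by linarith
  -- conclusion
  have h6 : (x : ℝ) / (4 * l ^ 2) ≤ p * m / (2 * N) := by
    rw [div_le_div_iff₀ (by positivity) (by positivity)]
    have e1 : (x : ℝ) * N ≤ (2 * l * p) * (m * l) := mul_le_mul hpi hml hN'.le (by positivity)
    calc (x : ℝ) * (2 * N) = 2 * (x * N) := by ring
      _ ≤ 2 * ((2 * l * p) * (m * l)) := mul_le_mul_of_nonneg_left e1 (by norm_num)
      _ = p * m * (4 * l ^ 2) := by ring
  have h7 : (Q.card : ℝ) * x / (256 * l ^ 2) ≤ H * LL := by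
    refine le_trans ?_ h5
    calc (Q.card : ℝ) * x / (256 * l ^ 2) = Q.card / 64 * (x / (4 * l ^ 2)) := by
          field_simp
          norm_num
      _ ≤ Q.card / 64 * (p * m / (2 * N)) := mul_le_mul_of_nonneg_left h6 (by positivity)
      _ = p * Q.card * m / (64 * N) / 2 := by
          field_simp
  have h8 : (Q.card : ℝ) * x * u ≤ 256 * l ^ 2 * (X1 * t ^ 4) * LL := by
    rw [div_le_iff₀ (by positivity), hH] at h7
    calc (Q.card : ℝ) * x * u ≤ (X1 * t ^ 4 / u * LL * (256 * l ^ 2)) * u :=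
          mul_le_mul_of_nonneg_right h7 hu.le
      _ = 256 * l ^ 2 * (X1 * t ^ 4) * LL := by
          field_simp
  have hLL0 : 0 ≤ LL := sum_nonneg fun _ _ => sum_nonneg fun _ _ => abs_nonneg _
  have h9 : ((Q.card : ℝ) * A * u) * X1 ≤ (t ^ 8 * LL) * X1 := by
    have e1 : 256 * l ^ 2 ≤ t ^ 4 := by
      have : t ≤ t ^ 4 := by
        calc t = t ^ 1 := (pow_one t).symm
          _ ≤ t ^ 4 := pow_le_pow_right₀ ht1' (by norm_num)
      linarith
    calc ((Q.card : ℝ) * A * u) * X1 = Q.card * (X1 * A) * u := by ring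
      _ = Q.card * x * u := by rw [hX1A]
      _ ≤ 256 * l ^ 2 * (X1 * t ^ 4) * LL := h8
      _ ≤ t ^ 4 * (X1 * t ^ 4) * LL := by
          apply mul_le_mul_of_nonneg_right _ hLL0
          exact mul_le_mul_of_nonneg_right e1 (by positivity)
      _ = (t ^ 8 * LL) * X1 := by ring
  exact le_of_mul_le_mul_right h9 hX1p

end Pool.Agent.H92.EH
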