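import Mathlib
import Pool.Agent.H92.EH2.Event
import Pool.Agent.H92.EH3.L1Core
import Pool.Agent.H92.EH3.DivBound

/-!
The first moment bound for all large `x`.
-/

set_option autoImplicit false

namespace Pool.Agent.H92.EH

open Finset Filter

theorem log_pow_eventually (K δ : ℝ) (hK : 0 < K) (hδ : 0 < δ) : ∀ᶠ x : ℕ in atTop,
    K * Real.log x ^ 4 ≤ (x : ℝ) ^ δ := by
  have hlo := (isLittleO_log_rpow_rpow_atTop (s := δ) 4 hδ).def (c := 1 / K) (by positivity)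
  have hlo' := tendsto_natCast_atTop_atTop.eventually hlo
  filter_upwards [hlo', eventually_ge_atTop 1] with x hx hx1
  have hx1' : (1 : ℝ) ≤ x := by exact_mod_cast hx1
  have hlog : 0 ≤ Real.log x := Real.log_nonneg hx1'
  rw [Real.norm_of_nonneg (by positivity), Real.norm_of_nonneg (by positivity)] at hx
  have h1 : Real.log (x : ℝ) ^ (4 : ℝ) = Real.log x ^ 4 := by
    exact_mod_cast Real.rpow_natCast (Real.log (x : ℝ)) 4
  rw [h1, one_div, inv_mul_eq_div, le_div_iff₀ hK] at hx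
  linarith

theorem l1_final (k : ℕ) (hk : 1 ≤ k) (ε : ℝ) (hε : 0 < ε) : ∃ x₀ : ℕ, ∀ x : ℕ, x₀ ≤ x →
    ∀ A : ℕ, (x : ℝ) ^ (1 / 2 + ε) ≤ A → (A : ℝ) ≤ (x : ℝ) ^ (1 - ε) →
    ∀ Q : Finset ℕ, Q ⊆ Ioc A (2 * A) → (A : ℝ) * (x : ℝ) ^ (-(ε / 8)) ≤ Q.card →
      (Q.card : ℝ) * A * ((x : ℝ) ^ (-ε)
        * (min ((A : ℝ) ^ 2 / x) (((x : ℝ) / A) ^ (k - 1))) ^ (1 / (2 * (k : ℝ) - 1)))
        ≤ ∑ q ∈ Q, ∑ a ∈ red q, |er x q a| := by
  have hk' : (1 : ℝ) ≤ k := by exact_mod_cast hk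
  obtain ⟨N₀, hN₀⟩ := eventually_atTop.mp card_RR_ge
  obtain ⟨Cd, hCd1, hCd⟩ := div_bound (ε / (16 * k)) (by positivity)
  set K : ℝ := 117964800 + 20480 * (k : ℝ) ^ k * 72 ^ k + 20480 * 72 ^ (2 * k) + N₀ + k with hK
  have hK0 : 0 < K := by positivity
  have hlog : Tendsto (fun x : ℕ => Real.log (x : ℝ)) atTop atTop :=
    Real.tendsto_log_atTop.comp tendsto_natCast_atTop_atTop
  have hall : ∀ᶠ x : ℕ in atTop, 4 ≤ Real.log (x : ℝ)
      ∧ K * Real.log x ^ 4 ≤ (x : ℝ) ^ (ε / 8)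
      ∧ (x : ℝ) ≤ 2 * Real.log x * Nat.primeCounting x
      ∧ Cd * (k : ℝ) ^ (ε / (16 * k)) ≤ (x : ℝ) ^ (ε / 16) := by
    filter_upwards [hlog.eventually_ge_atTop 4, log_pow_eventually K (ε / 8) hK0 (by positivity),
      cheb_eventually,
      ((tendsto_rpow_atTop (by positivity : 0 < ε / 16)).comp
        tendsto_natCast_atTop_atTop).eventually_ge_atTop (Cd * (k : ℝ) ^ (ε / (16 * k)))]
      with x a b c d
    exact ⟨a, b, c, d⟩
  obtain ⟨x₀, hx₀⟩ := eventually_atTop.mp hall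
  refine ⟨x₀, fun x hx A hA1 hA2 Q hQ hQc => ?_⟩
  obtain ⟨h1, h2, h3, h4⟩ := hx₀ x hx
  have hx0 : 0 < x := by
    rcases Nat.eq_zero_or_pos x with h | h
    · rw [h, Nat.cast_zero, Real.log_zero] at h1
      linarith
    · exact h
  have hX : (0 : ℝ) < x := by exact_mod_cast hx0
  set l := Real.log (x : ℝ) with hl
  set t : ℝ := (x : ℝ) ^ (ε / 8) with ht
  have htp : 0 < t := by positivity
  have hl4 : 1 ≤ l ^ 4 := one_le_pow₀ (by linarith)
  have hl24 : l ^ 2 ≤ l ^ 4 := pow_le_pow_right₀ (by linarith) (by norm_num)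
  have hl2 : 0 ≤ l ^ 2 := by positivity
  have ht8 : t ^ 8 = (x : ℝ) ^ ε := by
    rw [ht, ← Real.rpow_natCast, ← Real.rpow_mul hX.le]
    congr 1
    push_cast
    ring
  have hp1 : (0 : ℝ) ≤ 20480 * (k : ℝ) ^ k * 72 ^ k := by positivity
  have hp2 : (0 : ℝ) ≤ 20480 * 72 ^ (2 * k) := by positivity
  have hp3 : (0 : ℝ) ≤ N₀ := Nat.cast_nonneg _
  have hbig : ∀ c : ℝ, 0 ≤ c → c ≤ K → c * l ^ 4 ≤ t := by
    intro c _ hc
    exact (mul_le_mul_of_nonneg_right hc (by positivity)).trans h2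
  have hbig2 : ∀ c : ℝ, 0 ≤ c → c ≤ K → c * l ^ 2 ≤ t := by
    intro c hc0 hc
    exact (mul_le_mul_of_nonneg_left hl24 hc0).trans (hbig c hc0 hc)
  have hbig0 : ∀ c : ℝ, 0 ≤ c → c ≤ K → c ≤ t := by
    intro c hc0 hc
    calc c = c * 1 := (mul_one c).symm
      _ ≤ c * l ^ 4 := mul_le_mul_of_nonneg_left hl4 hc0
      _ ≤ t := hbig c hc0 hc
  have hA' : (0 : ℝ) < A := lt_of_lt_of_le (by positivity) hA1
  have hsqrt : Real.sqrt x * t ^ 8 = (x : ℝ) ^ (1 / 2 + ε) := by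
    rw [ht8, Real.sqrt_eq_rpow, ← Real.rpow_add hX]
  have hA2' : (A : ℝ) * t ^ 8 ≤ x := by
    rw [ht8]
    calc (A : ℝ) * (x : ℝ) ^ ε ≤ (x : ℝ) ^ (1 - ε) * (x : ℝ) ^ ε :=
          mul_le_mul_of_nonneg_right hA2 (by positivity)
      _ = x := by
          rw [← Real.rpow_add hX, sub_add_cancel, Real.rpow_one]
  have hQc' : (A : ℝ) ≤ Q.card * t := by
    have e1 : (x : ℝ) ^ (-(ε / 8)) * t = 1 := by
      rw [ht, ← Real.rpow_add hX, neg_add_cancel, Real.rpow_zero]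
    calc (A : ℝ) = A * ((x : ℝ) ^ (-(ε / 8)) * t) := by rw [e1, mul_one]
      _ = (A * (x : ℝ) ^ (-(ε / 8))) * t := by ring
      _ ≤ Q.card * t := mul_le_mul_of_nonneg_right hQc htp.le
  set w : ℝ := min ((A : ℝ) ^ 2 / x) (((x : ℝ) / A) ^ (k - 1)) with hw
  have hw0 : 0 < w := lt_min (by positivity) (by positivity)
  set u : ℝ := w ^ (1 / (2 * (k : ℝ) - 1)) with hu
  have hu0 : 0 < u := by positivity
  have hupow : u ^ (2 * k - 1) = w := by
    rw [hu, ← Real.rpow_natCast, ← Real.rpow_mul hw0.le]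
    have e1 : ((2 * k - 1 : ℕ) : ℝ) = 2 * (k : ℝ) - 1 := by
      rw [Nat.cast_sub (by omega)]
      push_cast
      ring
    rw [e1, one_div, inv_mul_cancel₀ (by linarith), Real.rpow_one]
  have hcore := l1_core k N₀ hk hN₀ x A Q l t u hl h1
    (hbig 117964800 (by norm_num) (by rw [hK]; linarith))
    (hbig0 (N₀ + k) (by positivity) (by rw [hK]; linarith))
    (hbig2 (20480 * (k : ℝ) ^ k * 72 ^ k) hp1 (by rw [hK]; linarith))
    (hbig2 (20480 * 72 ^ (2 * k)) hp2 (by rw [hK]; linarith))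
    h3 (by rw [hsqrt]; exact hA1) hA2' hQ hQc' hu0
    (by rw [hupow]; exact min_le_right _ _) (by rw [hupow]; exact min_le_left _ _)
    (by
      intro n hn1 hn2
      have hn0 : (0 : ℝ) < n := by exact_mod_cast hn1
      refine (hCd n hn1).trans ?_
      have e1 : (n : ℝ) ^ (ε / (16 * k)) ≤ ((k : ℝ) * (x : ℝ) ^ k) ^ (ε / (16 * k)) :=
        Real.rpow_le_rpow hn0.le hn2 (by positivity)
      have e2 : ((k : ℝ) * (x : ℝ) ^ k) ^ (ε / (16 * k))
          = (k : ℝ) ^ (ε / (16 * k)) * (x : ℝ) ^ (ε / 16) := by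
        rw [Real.mul_rpow (by positivity) (by positivity), ← Real.rpow_natCast (x : ℝ) k,
          ← Real.rpow_mul hX.le]
        congr 2
        field_simp
      calc Cd * (n : ℝ) ^ (ε / (16 * k))
          ≤ Cd * ((k : ℝ) ^ (ε / (16 * k)) * (x : ℝ) ^ (ε / 16)) := by
            rw [← e2]
            exact mul_le_mul_of_nonneg_left e1 (by linarith)
        _ = (Cd * (k : ℝ) ^ (ε / (16 * k))) * (x : ℝ) ^ (ε / 16) := by ring
        _ ≤ (x : ℝ) ^ (ε / 16) * (x : ℝ) ^ (ε / 16) :=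
            mul_le_mul_of_nonneg_right h4 (by positivity)
        _ = t := by
            rw [ht, ← Real.rpow_add hX]
            congr 1
            ring)
  have hneg : (x : ℝ) ^ (-ε) * t ^ 8 = 1 := by
    rw [ht8, ← Real.rpow_add hX, neg_add_cancel, Real.rpow_zero]
  calc (Q.card : ℝ) * A * ((x : ℝ) ^ (-ε) * u)
      = (x : ℝ) ^ (-ε) * (Q.card * A * u) := by ring
    _ ≤ (x : ℝ) ^ (-ε) * (t ^ 8 * ∑ q ∈ Q, ∑ a ∈ red q, |er x q a|) :=
        mul_le_mul_of_nonneg_left hcore (by positivity)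
    _ = ((x : ℝ) ^ (-ε) * t ^ 8) * ∑ q ∈ Q, ∑ a ∈ red q, |er x q a| := by ring
    _ = _ := by rw [hneg, one_mul]

end Pool.Agent.H92.EH
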