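import Mathlib
import Pool.Agent.H92.EH3.L1Final

/-!
The sum of the errors over the reduced classes, and one-sided bounds.
-/

set_option autoImplicit false

namespace Pool.Agent.H92.EH

open Finset

theorem sum_pc (x q : ℕ) (hq : 0 < q) :
    ∑ a ∈ red q, pc x q (a : ZMod q)
      = ((Icc 1 x).filter (fun p : ℕ => Nat.Prime p ∧ Nat.Coprime p q)).card := by
  have : NeZero q := ⟨hq.ne'⟩
  rw [card_eq_sum_card_fiberwise (f := fun p => p % q) (t := red q)]
  · refine sum_congr rfl fun a ha => ?_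
    obtain ⟨ha1, ha2⟩ := mem_red.mp ha
    unfold pc
    congr 1
    ext p
    simp only [mem_filter, mem_Icc]
    constructor
    · rintro ⟨⟨h1, h2⟩, hp, h3⟩
      have h4 : p % q = a := by
        have h5 := (ZMod.natCast_eq_natCast_iff' p a q).mp h3
        rw [h5, Nat.mod_eq_of_lt ha1]
      refine ⟨⟨⟨h1, h2⟩, hp, ?_⟩, h4⟩
      rw [← h4] at ha2
      unfold Nat.Coprime at ha2 ⊢
      rw [Nat.gcd_comm, Nat.gcd_rec]
      exact ha2
    · rintro ⟨⟨⟨h1, h2⟩, hp, h3⟩, h4⟩
      refine ⟨⟨h1, h2⟩, hp, ?_⟩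
      rw [← h4, ZMod.natCast_mod]
  · intro p hp
    have hp' := (mem_filter.mp (mem_coe.mp hp)).2
    rw [mem_coe, mem_red]
    refine ⟨Nat.mod_lt _ hq, ?_⟩
    have := hp'.2
    unfold Nat.Coprime at this ⊢
    rw [Nat.gcd_comm, Nat.gcd_rec] at this
    exact this

theorem sum_pc_le (x q : ℕ) (hq : 0 < q) :
    ∑ a ∈ red q, pc x q (a : ZMod q) ≤ Nat.primeCounting x := by
  rw [sum_pc x q hq, Nat.primeCounting, Nat.primeCounting', Nat.count_eq_card_filter_range]
  apply card_le_card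
  intro p hp
  simp only [mem_filter, mem_Icc, mem_range] at hp ⊢
  exact ⟨by omega, hp.2.1⟩

theorem primeCounting_le_sum_pc (x q : ℕ) (hq : 0 < q) :
    Nat.primeCounting x ≤ ∑ a ∈ red q, pc x q (a : ZMod q) + q.primeFactors.card := by
  rw [sum_pc x q hq, Nat.primeCounting, Nat.primeCounting', Nat.count_eq_card_filter_range]
  refine le_trans (card_le_card ?_) (card_union_le _ _)
  intro p hp
  simp only [mem_filter, mem_Icc, mem_range, mem_union] at hp ⊢
  by_cases h : Nat.Coprime p q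
  · exact Or.inl ⟨⟨hp.2.one_le, by omega⟩, hp.2, h⟩
  · right
    rw [Nat.mem_primeFactors]
    refine ⟨hp.2, ?_, hq.ne'⟩
    by_contra h2
    exact h ((Nat.Prime.coprime_iff_not_dvd hp.2).mpr h2)

theorem card_primeFactors_le_log (q : ℕ) (hq : 0 < q) :
    (q.primeFactors.card : ℝ) ≤ 2 * Real.log q := by
  have h1 : 2 ^ q.primeFactors.card ≤ q := by
    calc 2 ^ q.primeFactors.card = ∏ _p ∈ q.primeFactors, 2 := by rw [prod_const]
      _ ≤ ∏ p ∈ q.primeFactors, p :=
          prod_le_prod' fun p hp => (Nat.prime_of_mem_primeFactors hp).two_le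
      _ ≤ q := Nat.le_of_dvd hq (Nat.prod_primeFactors_dvd q)
  have h2 : ((2 : ℝ) ^ q.primeFactors.card) ≤ q := by exact_mod_cast h1
  have h3 := Real.log_le_log (by positivity) h2
  rw [Real.log_pow] at h3
  have h4 : (1 : ℝ) / 2 ≤ Real.log 2 := by
    have := Real.log_two_gt_d9
    linarith
  have h5 : (0 : ℝ) ≤ q.primeFactors.card := Nat.cast_nonneg _
  nlinarith [mul_le_mul_of_nonneg_left h4 h5]

theorem sum_er (x q : ℕ) (hq : 0 < q) :
    ∑ a ∈ red q, er x q a ≤ 0 ∧ -(2 * Real.log q) ≤ ∑ a ∈ red q, er x q a := by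
  have hφ : (0 : ℝ) < Nat.totient q := by exact_mod_cast Nat.totient_pos.mpr hq
  have e1 : ∑ a ∈ red q, er x q a
      = ((∑ a ∈ red q, pc x q (a : ZMod q) : ℕ) : ℝ) - Nat.primeCounting x := by
    have : ∀ a : ℕ, er x q a = ((pc x q (a : ZMod q) : ℕ) : ℝ)
      - (Nat.primeCounting x : ℝ) / (Nat.totient q : ℝ) := fun _ => rfl
    simp_rw [this]
    rw [sum_sub_distrib, sum_const, card_red', nsmul_eq_mul, mul_div_cancel₀ _ hφ.ne']
    push_cast
    rfl
  have h1 : ((∑ a ∈ red q, pc x q (a : ZMod q) : ℕ) : ℝ) ≤ Nat.primeCounting x := by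
    exact_mod_cast sum_pc_le x q hq
  have h2 : (Nat.primeCounting x : ℝ) ≤ ((∑ a ∈ red q, pc x q (a : ZMod q) : ℕ) : ℝ)
      + q.primeFactors.card := by exact_mod_cast primeCounting_le_sum_pc x q hq
  have h3 := card_primeFactors_le_log q hq
  rw [e1]
  constructor <;> linarith

/-- If all the errors are at most `b`, the first moment is small. -/
theorem l1_le_of_le (x q : ℕ) (hq : 0 < q) (b : ℝ) (hb : 0 ≤ b) (h : ∀ a ∈ red q, er x q a ≤ b) :
    ∑ a ∈ red q, |er x q a| ≤ 2 * (q * b) + 2 * Real.log q := by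
  have h1 : ∀ a ∈ red q, |er x q a| ≤ 2 * b - er x q a := by
    intro a ha
    rw [abs_le]
    have := h a ha
    constructor <;> linarith
  have h2 := sum_le_sum h1
  rw [sum_sub_distrib, sum_const, card_red', nsmul_eq_mul] at h2
  have h3 := (sum_er x q hq).2
  have h4 : (Nat.totient q : ℝ) ≤ q := by exact_mod_cast Nat.totient_le q
  have h5 : (Nat.totient q : ℝ) * (2 * b) ≤ q * (2 * b) :=
    mul_le_mul_of_nonneg_right h4 (by positivity)
  linarith

theorem l1_le_of_ge (x q : ℕ) (hq : 0 < q) (b : ℝ) (hb : 0 ≤ b)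
    (h : ∀ a ∈ red q, -b ≤ er x q a) :
    ∑ a ∈ red q, |er x q a| ≤ 2 * (q * b) + 2 * Real.log q := by
  have h1 : ∀ a ∈ red q, |er x q a| ≤ 2 * b + er x q a := by
    intro a ha
    rw [abs_le]
    have := h a ha
    constructor <;> linarith
  have h2 := sum_le_sum h1
  rw [sum_add_distrib, sum_const, card_red', nsmul_eq_mul] at h2
  have h3 := (sum_er x q hq).1
  have h4 : (Nat.totient q : ℝ) ≤ q := by exact_mod_cast Nat.totient_le q
  have h5 : (Nat.totient q : ℝ) * (2 * b) ≤ q * (2 * b) :=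
    mul_le_mul_of_nonneg_right h4 (by positivity)
  have h6 : 0 ≤ Real.log (q : ℝ) := Real.log_nonneg (by exact_mod_cast hq)
  linarith

end Pool.Agent.H92.EH
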